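import Pool.Agent.Lib.MP_d308c3_co.Mac.Geo

/-!
The macro step for one node: input and output.
-/

set_option autoImplicit false

namespace Pool.Agent.Lib.MP_d308c3_co.Mac

open Finset Cut Ex Pool.Agent.MP_d308c3_co.Cores
open scoped Classical

variable {I W W1 : Type}

/-- output of LX for the centre `x` -/
structure LXout (U : ℕ → I → Prop) (Y : Finset I) (a : I → ℝ) (J1 : Finset W1) (lo1 hi1 : W1 → ℕ)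
    (x : ℝ) (rQ : ℕ) (σ : ℝ) (P1 P2 : W1 → Finset ℝ) (Rest : W1 → ℝ → Prop) (Q : W1 → Finset ℤ) :
    Prop where
  card : ∀ j ∈ J1, (Q j).card ≤ rQ
  sep : ∀ j ∈ J1, ∀ y y' : ℝ, y < y' → ¬ (Rest j y ↔ Rest j y') →
    (∃ z ∈ P1 j, y < z ∧ z ≤ y') ∨ ∃ z ∈ P2 j, y ≤ z ∧ z < y'
  list : ∀ j ∈ J1, ∀ (y : ℝ) (q : ℤ), (2 : ℝ) ^ q ≤ |y - x| → |y - x| < (2 : ℝ) ^ (q + 1) →
    q ∉ Q j → Rest j y
  sum : ((∑ j ∈ J1, ((Ch U (Y.filter fun p => Rest j (a p)) (lo1 j) (hi1 j)).card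
    + ∑ z ∈ P1 j, flux U Y (fun p => a p < z) (lo1 j) (hi1 j)
    + ∑ z ∈ P2 j, flux U Y (fun p => a p ≤ z) (lo1 j) (hi1 j)) : ℕ) : ℝ) ≤ σ

/-- `Phi` of the rest -/
theorem LXout.phi {U : ℕ → I → Prop} {Y : Finset I} {a : I → ℝ} {J1 : Finset W1} {lo1 hi1 : W1 → ℕ}
    {x σ : ℝ} {rQ : ℕ} {P1 P2 : W1 → Finset ℝ} {Rest : W1 → ℝ → Prop} {Q : W1 → Finset ℤ}
    (h : LXout U Y a J1 lo1 hi1 x rQ σ P1 P2 Rest Q) {k0 k1 : ℕ} (hD : Dis J1 lo1 hi1 k0 k1)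
    {R : I → I → Prop} (hT : TP U Y R k0 k1) (hR : ∀ p q, R p q → a p < a q) :
    ∑ j ∈ J1, (Phi U (Y.filter fun p => Rest j (a p)) (lo1 j) (hi1 j) : ℝ) ≤ Phi U Y k0 k1 + 2 * σ := by
  have s1 : ∀ j ∈ J1, Phi U (Y.filter fun p => Rest j (a p)) (lo1 j) (hi1 j) ≤ Dr U Y (lo1 j) (hi1 j)
      + 2 * ((Ch U (Y.filter fun p => Rest j (a p)) (lo1 j) (hi1 j)).card
        + ∑ z ∈ P1 j, flux U Y (fun p => a p < z) (lo1 j) (hi1 j)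
        + ∑ z ∈ P2 j, flux U Y (fun p => a p ≤ z) (lo1 j) (hi1 j)) := by
    intro j hj
    have c := cut (hT.mono Subset.rfl (hD.lo_le j hj) (hD.le_hi j hj)) (fun p => Rest j (a p)) {True}
      ((P1 j).disjSum (P2 j)) (Sum.elim (fun z p => a p < z) fun z p => a p ≤ z) (by
        intro p _ q _ hpq hne
        rcases h.sep j hj _ _ (hR p q hpq) (fun e => hne (propext e)) with ⟨z, hz, x, y⟩ | ⟨z, hz, x, y⟩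
        · exact ⟨Sum.inl z, inl_mem_disjSum.2 hz, x, not_lt.2 y⟩
        · exact ⟨Sum.inr z, inr_mem_disjSum.2 hz, x, not_le.2 y⟩)
    rw [sum_singleton, sum_disjSum] at c
    simp only [Sum.elim_inl, Sum.elim_inr, eq_iff_iff, iff_true] at c
    unfold Phi
    omega
  have s2 := sum_le_sum s1
  rw [sum_add_distrib, ← mul_sum] at s2
  have s3 : ∑ j ∈ J1, Dr U Y (lo1 j) (hi1 j) ≤ Phi U Y k0 k1 :=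
    (sum_Dr_le (fun j hj => ⟨hD.lo_le j hj, hD.le_hi j hj⟩) hD.dis).trans (Nat.le_add_left _ _)
  have s4 := h.sum
  rw [← Nat.cast_sum]
  have s5 := (Nat.cast_le (α := ℝ)).2 (s2.trans (Nat.add_le_add_right s3 _))
  rw [Nat.cast_add, Nat.cast_mul] at s5
  push_cast at s4 s5 ⊢
  linarith

/-- input of the macro step -/
structure MacIn (a b : I → ℝ) (t m : ℕ → ℝ) (Y : Finset I) (k0 k1 : ℕ) (g ε C : ℝ)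
    (J2 : Finset W) (lo hi : W → ℕ) (J1 : Finset W1) (lo1 hi1 : W1 → ℕ) (anc : W → W1)
    (N : W → ℝ) (n th1 th2 : ℝ) (rQ : ℕ) (σ : ℝ) (ω : W → I → ℝ) (E E' η : ℝ) : Prop where
  mono : ∀ k l, k0 ≤ k → k ≤ l → l ≤ k1 → t k ≤ t l
  lt : t k0 < t k1
  inj : ∀ p ∈ Y, ∀ q ∈ Y, a p = a q → b p = b q → p = q
  g0 : 0 ≤ g
  ε0 : 0 < ε
  C0 : 0 ≤ C
  pw : ∀ Z ⊆ Y, PW (fun i j => (Phi (St a b t m) Z i j : ℝ)) g C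
  lay : Lay J2 lo hi J1 lo1 hi1 anc k0 k1
  N0 : ∀ j ∈ J2, 0 < N j
  N2 : ∀ j ∈ J2, N j ≤ th2
  Nn : ∑ j ∈ J2, N j ≤ n
  N1 : ∀ j1 ∈ J1, ∑ j ∈ J2.filter (fun j => anc j = j1), N j ≤ th1
  th10 : 0 ≤ th1
  th20 : 0 ≤ th2
  n0 : 0 < n
  lx : ∀ x, ∃ P1 P2 Rest Q, LXout (St a b t m) Y a J1 lo1 hi1 x rQ σ P1 P2 Rest Q
  ω0 : ∀ j ∈ J2, ∀ p ∈ Y, 0 ≤ ω j p
  supp : ∀ j ∈ J2, ∀ p ∈ Y, ω j p ≠ 0 → p ∈ Ch (St a b t m) Y (lo j) (hi j)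
  tot : 0 < ∑ p ∈ Y, ∑ j ∈ J2, ω j p
  E1 : 1 ≤ E
  E'0 : 0 < E'
  η0 : 0 < η

/-- output of the macro step -/
structure MacOut (a b : I → ℝ) (t m : ℕ → ℝ) (Y : Finset I) (k0 k1 : ℕ) (g ε C : ℝ)
    (J2 : Finset W) (lo hi : W → ℕ) (J1 : Finset W1) (anc : W → W1)
    (N : W → ℝ) (n th1 th2 : ℝ) (rQ : ℕ) (σ : ℝ) (ω : W → I → ℝ) (E E' η : ℝ)
    (cs : W → I → Finset I) (bad : W → Finset I → Prop) (Act : Finset (Lab I))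
    (X1 X2 : Lab I → Finset I) : Prop where
  self : ∀ j, ∀ p ∈ Y, p ∈ cs j p
  sub : ∀ j p, cs j p ⊆ Y
  part : ∀ j p, ∀ q ∈ cs j p, cs j q = cs j p
  ncell : ∀ j, ((Y.image (cs j)).card : ℝ) ≤ 2 * (E + 2) * (E + 1) * (513 / η + 1)
  share : ∑ j ∈ J2, ∑ S ∈ Y.image (cs j), (Phi (St a b t m) S (lo j) (hi j) : ℝ) * N j ^ (g + ε)
    ≤ C * 8 ^ g / (1 - 2 ^ (-ε)) * Phi (St a b t m) Y k0 k1 * n ^ (g + ε)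
      + th2 ^ (g + ε) * ((5 + 4 * E + 1026 / η) * Phi (St a b t m) Y k0 k1 + 2 * E * σ)
  badshare : ∑ j ∈ J2, ∑ S ∈ (Y.image (cs j)).filter (bad j),
      (Phi (St a b t m) S (lo j) (hi j) : ℝ) * N j ^ (g + ε)
    ≤ 3 * (th2 ^ (g + ε) * ((5 + 4 * E + 1026 / η) * Phi (St a b t m) Y k0 k1 + 2 * E * σ))
      + 5 * (C * 8 ^ g / (1 - 2 ^ (-ε))) * Phi (St a b t m) Y k0 k1 * (n / E') ^ (g + ε)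
      + E * (C * 8 ^ g / (1 - 2 ^ (-ε)) * th1 ^ (g + ε) * (Phi (St a b t m) Y k0 k1 + 2 * σ))
  sub1 : ∀ l, X1 l ⊆ Y
  sub2 : ∀ l, X2 l ⊆ Y
  disj : ∀ l l' p, p ∈ X1 l → p ∈ X1 l' → l = l'
  nact : (Act.card : ℝ) ≤ 1 / η
  mass1 : ∀ l ∈ Act, η * ∑ p ∈ Y, ∑ j ∈ J2, ω j p ≤ ∑ p ∈ X1 l, ∑ j ∈ J2, ω j p
  mass2 : ∀ l ∈ Act, (∑ p ∈ Y, ∑ j ∈ J2, ω j p) / (2 * E) ≤ ∑ p ∈ X2 l, ∑ j ∈ J2, ω j p
  gap : ∀ l ∈ Act, ∀ p ∈ X1 l, ∀ q ∈ X2 l, (2 : ℝ) ^ l.2.2 ≤ |a p - a q|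
  arange : ∀ l ∈ Act, ∀ p ∈ X1 l ∪ X2 l, ∀ q ∈ X1 l ∪ X2 l, |a p - a q| ≤ 40 * 2 ^ l.2.2
  hrange : ∀ l ∈ Act, ∀ p ∈ X1 l ∪ X2 l, ∀ q ∈ X1 l ∪ X2 l,
    |(b p + t k0 * a p) - (b q + t k0 * a q)| + |(b p + t k1 * a p) - (b q + t k1 * a q)|
      ≤ 40 * (t k1 - t k0) * 2 ^ l.2.2
  narrow : ∀ l ∈ Act, ∀ p ∈ X1 l ∪ X2 l, ∀ j, ∃ x0 : ℝ, ∀ q ∈ cs j p,
    x0 ≤ a q ∧ a q < x0 + 2 ^ (l.2.2 - 2)
  miss : (∑ p ∈ Y, ∑ j ∈ J2,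
      if anc j ∈ J1 ∧ ¬ bad j (cs j p) ∧ ∀ l ∈ Act, p ∉ X1 l then ω j p else 0)
    ≤ 2 * (∑ p ∈ Y, ∑ j ∈ J2, if bad j (cs j p) then ω j p else 0)
      + (8 * E' / E + η * (2 * E * J1.card * rQ)) * ∑ p ∈ Y, ∑ j ∈ J2, ω j p

end Pool.Agent.Lib.MP_d308c3_co.Mac
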