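import Pool.Agent.Lib.MP_d308c3_co.Mac.StepA

/-!
The macro step for one node.
-/

set_option autoImplicit false

namespace Pool.Agent.Lib.MP_d308c3_co.Mac

open Finset Cut Ex Pool.Agent.MP_d308c3_co.Cores
open scoped Classical

variable {I W W1 : Type}

theorem mem_cellOf {Λ : Type} {Y : Finset I} {π : I → Λ} {p q : I} :
    q ∈ cellOf Y π p ↔ q ∈ Y ∧ π q = π p := mem_filter

theorem cellOf_congr {Λ : Type} {Y : Finset I} {π : I → Λ} {p q : I} (h : π q = π p) :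
    cellOf Y π q = cellOf Y π p := by
  unfold cellOf
  rw [h]

theorem card_cellOf_le' {Λ : Type} [DecidableEq Λ] {Y : Finset I} {π : I → Λ} :
    (Y.image (cellOf Y π)).card ≤ (Y.image π).card := by
  exact (card_cellOf_le (Y := Y) (π := π)).trans_eq
    (congrArg card (Finset.ext fun x => by simp only [mem_image]))

/-- mass of the heavier parity class: bad items or big extreme boxes -/
theorem massF_le {U : ℕ → I → Prop} {Y F : Finset I} {G : I → ℕ} {β : I → Option ℕ} {e : ℕ}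
    {J2 : Finset W} {lo hi : W → ℕ} {N : W → ℝ} {n E' th : ℝ} {ω : W → I → ℝ}
    {B : W → I → Prop} (hF : F ⊆ Y) (hN : ∀ j ∈ J2, 0 < N j) (hn : ∑ j ∈ J2, N j ≤ n) (hn0 : 0 < n)
    (hE : 0 < E') (hth : 0 ≤ th) (hω : ∀ j ∈ J2, ∀ p ∈ Y, 0 ≤ ω j p)
    (hs : ∀ j ∈ J2, ∀ p ∈ Y, ω j p ≠ 0 → p ∈ Ch U Y (lo j) (hi j))
    (hβ : ∀ p ∈ F, G p % 2 = e → β p = some (G p))
    (hG : ∀ c, ∑ p ∈ F.filter (fun p => G p = c), ∑ j ∈ J2, ω j p < 2 * th)
    (hB : ∀ j p c, β p = some c → Mid U Y β (lo j) (hi j) c ∨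
      (Ext U Y β (lo j) (hi j) c ∧ nExt U Y β J2 lo hi N c ≤ n / E') → B j p) :
    ∑ p ∈ F.filter (fun p => G p % 2 = e), ∑ j ∈ J2, ω j p
      ≤ (∑ p ∈ Y, ∑ j ∈ J2, if B j p then ω j p else 0) + 2 * E' * (2 * th) := by
  set Big := (F.image G).filter fun c => n / E' < nExt U Y β J2 lo hi N c with hBig
  have s1 : ∀ p ∈ F.filter (fun p => G p % 2 = e), ∑ j ∈ J2, ω j p
      ≤ (∑ j ∈ J2, if B j p then ω j p else 0) + if G p ∈ Big then ∑ j ∈ J2, ω j p else 0 := by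
    intro p hp
    obtain ⟨hp, he⟩ := mem_filter.1 hp
    have h0 : 0 ≤ ∑ j ∈ J2, if B j p then ω j p else 0 :=
      sum_nonneg fun j hj => by split_ifs; exacts [hω j hj p (hF hp), le_rfl]
    split_ifs with hb
    · linarith
    · rw [add_zero]
      refine sum_le_sum fun j hj => ?_
      by_cases h : ω j p = 0
      · rw [h]; simp
      · have hT : Touch U Y β (lo j) (hi j) (G p) := ⟨p, by
          rw [Ch_filter]; exact mem_filter.2 ⟨hs j hj p (hF hp) h, hβ p hp he⟩⟩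
        have hsm : nExt U Y β J2 lo hi N (G p) ≤ n / E' :=
          not_lt.1 fun x => hb (mem_filter.2 ⟨mem_image_of_mem _ hp, x⟩)
        rw [if_pos (hB j p _ (hβ p hp he) (by
          by_cases x : Mid U Y β (lo j) (hi j) (G p)
          exacts [Or.inl x, Or.inr ⟨⟨hT, x⟩, hsm⟩]))]
  refine (sum_le_sum s1).trans ?_
  rw [sum_add_distrib]
  refine add_le_add (sum_le_sum_of_subset_of_nonneg ((filter_subset _ _).trans hF)
    fun p hp _ => sum_nonneg fun j hj => by split_ifs; exacts [hω j hj p hp, le_rfl]) ?_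
  rw [← sum_filter]
  have s2 : ∑ p ∈ (F.filter fun p => G p % 2 = e).filter (fun p => G p ∈ Big), ∑ j ∈ J2, ω j p
      ≤ ∑ c ∈ Big, ∑ p ∈ F.filter (fun p => G p = c), ∑ j ∈ J2, ω j p := by
    rw [← sum_fiberwise_of_maps_to (t := Big) (g := G) (fun p hp => (mem_filter.1 hp).2)]
    refine sum_le_sum fun c _ => sum_le_sum_of_subset_of_nonneg
      (filter_subset_filter _ ((filter_subset _ _).trans (filter_subset _ _))) fun p hp _ => ?_
    exact sum_nonneg fun j hj => hω j hj p (hF (mem_filter.1 hp).1)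
  refine s2.trans ((sum_le_card_nsmul Big _ _ fun c _ => (hG c).le).trans ?_)
  rw [nsmul_eq_mul]
  exact mul_le_mul_of_nonneg_right (card_big_le hN hn hn0 hE _) (by linarith)

theorem macro_step2 {a b : I → ℝ} {t m : ℕ → ℝ} {Y : Finset I} {k0 k1 : ℕ} {g ε C : ℝ}
    {J2 : Finset W} {lo hi : W → ℕ} {J1 : Finset W1} {lo1 hi1 : W1 → ℕ} {anc : W → W1}
    {N : W → ℝ} {n th1 th2 : ℝ} {rQ : ℕ} {σ : ℝ} {ω : W → I → ℝ} {E E' η : ℝ}
    (H : MacIn a b t m Y k0 k1 g ε C J2 lo hi J1 lo1 hi1 anc N n th1 th2 rQ σ ω E E' η) :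
    ∃ cs bad Act X1 X2,
      MacOut a b t m Y k0 k1 g ε C J2 lo hi J1 anc N n th1 th2 rQ σ ω E E' η cs bad Act X1 X2 ∧
        ∃ Z : Finset I, (Z.card : ℝ) ≤ E ∧ ∀ l ∈ Act, l.1 ∈ Z := by
  obtain ⟨J, hJd⟩ : ∃ J, J = t k1 - t k0 := ⟨_, rfl⟩
  have hJ : 0 < J := by rw [hJd]; exact sub_pos.2 H.lt
  obtain ⟨u, hu⟩ : ∃ u : I → ℝ, u = fun p => b p + t k0 * a p := ⟨_, rfl⟩
  obtain ⟨v, hv'⟩ : ∃ v : I → ℝ, v = fun p => b p + t k1 * a p := ⟨_, rfl⟩
  have hy : ∀ p, v p - u p = J * a p := fun p => by rw [hu, hv', hJd]; ring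
  obtain ⟨μ, hμ⟩ : ∃ μ : I → ℝ, μ = fun p => ∑ j ∈ J2, ω j p := ⟨_, rfl⟩
  have hμ' : ∀ p, ∑ j ∈ J2, ω j p = μ p := fun p => by rw [hμ]
  have hμ0 : ∀ p ∈ Y, 0 ≤ μ p := fun p hp => by
    rw [← hμ']; exact sum_nonneg fun j hj => H.ω0 j hj p hp
  obtain ⟨tot, htot⟩ : ∃ tot, tot = ∑ p ∈ Y, μ p := ⟨_, rfl⟩
  have ht0 : 0 < tot := by
    have := H.tot
    simp only [hμ'] at this
    rwa [htot]
  have hE0 : 0 < E := by linarith [H.E1]
  have hth0 : 0 < tot / E := div_pos ht0 hE0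
  obtain ⟨Z, F, r, yh, G, hZ, hF, cZ, hcore, hcov, -, hGE, hGm, hG⟩ :=
    cores Y u v μ hμ0 (tot / E) hth0 (by rw [← htot]; exact div_le_self ht0.le H.E1)
  rw [← htot] at cZ hGE
  have toE : ∀ x : ℝ, x * (tot / E) ≤ tot → x ≤ E := by
    intro x h
    rw [← mul_div_assoc, div_le_iff₀ hE0] at h
    exact le_of_mul_le_mul_right (by linarith) ht0
  have cZ' := toE _ cZ
  choose P1 P2 Rest Q hLX using H.lx
  obtain ⟨e, he⟩ := ex_parity F G μ
  obtain ⟨β, hβd⟩ : ∃ β, β = box F G u v e := ⟨_, rfl⟩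
  have hβ : Cut.IsChain Y (coneLt a b (t k0) (t k1)) β := by
    rw [hβd]
    exact box_chain hG (fun p _ q _ h => by rw [hu, hv']; exact ⟨h.2.1.le, h.2.2.le⟩)
      fun _ _ _ _ _ _ => coneLt_trans
  have hk : k0 ≤ k1 := by
    obtain ⟨p, hp, h⟩ := exists_ne_zero_of_sum_ne_zero H.tot.ne'
    obtain ⟨j, hj, -⟩ := exists_ne_zero_of_sum_ne_zero h
    exact ((H.lay.d2.lo_le j hj).trans (H.lay.d2.lt j hj).le).trans (H.lay.d2.le_hi j hj)
  have hO : Ord (St a b t m) Y β k0 k1 := by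
    intro p _ q _ c c' h h' hl k x y hU
    rw [hβd] at h h'
    have := box_lt hG h h' hl
    rw [hu, hv'] at this
    exact lt_of_lt_of_le hU (below_of_ends (H.mono k0 k le_rfl x y) (H.mono k k1 x y le_rfl)
      this.1.le this.2.le)
  obtain ⟨lb, hlb⟩ : ∃ lb, lb = lab Z a u v r yh J := ⟨_, rfl⟩
  obtain ⟨X1, hX1⟩ : ∃ X1 : Lab I → Finset I, X1 = fun l => Y.filter fun p => lb p = some l := ⟨_, rfl⟩
  have mX1 : ∀ l p, p ∈ X1 l ↔ p ∈ Y ∧ lab Z a u v r yh J p = some l := fun l p => by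
    rw [hX1, hlb]; exact mem_filter
  obtain ⟨Act, hAct⟩ : ∃ Act : Finset (Lab I), Act = ((Y.image lb).biUnion fun c => c.toFinset).filter
    fun l => η * tot ≤ ∑ p ∈ X1 l, μ p := ⟨_, rfl⟩
  have mAct : ∀ l, l ∈ Act ↔ (∃ p, p ∈ X1 l) ∧ η * tot ≤ ∑ p ∈ X1 l, μ p := by
    intro l
    rw [hAct, mem_filter]
    refine and_congr_left fun _ => ?_
    simp only [mem_biUnion, mem_image, Option.mem_toFinset, Option.mem_def, mX1, hlb]
    exact ⟨fun ⟨c, ⟨p, hp, x⟩, y⟩ => ⟨p, hp, x.trans y⟩, fun ⟨p, hp, x⟩ => ⟨_, ⟨p, hp, rfl⟩, x⟩⟩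
  have sumX1 : ∀ A : Finset (Lab I), ∑ l ∈ A, ∑ p ∈ X1 l, μ p ≤ tot := by
    intro A
    rw [← sum_biUnion, htot]
    · exact sum_le_sum_of_subset_of_nonneg (biUnion_subset.2 fun l _ p hp => ((mX1 l p).1 hp).1)
        fun p hp _ => hμ0 p hp
    · intro l _ l' _ hne
      exact disjoint_left.2 fun p h h' => hne
        (Option.some_injective _ (((mX1 l p).1 h).2.symm.trans ((mX1 l' p).1 h').2))
  have nact : (Act.card : ℝ) ≤ 1 / η := by
    have h1 := (card_nsmul_le_sum Act _ _ fun l hl => ((mAct l).1 hl).2).trans (sumX1 Act)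
    rw [nsmul_eq_mul] at h1
    rw [le_div_iff₀ H.η0]
    exact le_of_mul_le_mul_right (by linarith) ht0
  obtain ⟨cuts, hcuts⟩ : ∃ cuts : Finset ℝ,
    cuts = Act.biUnion fun l => grid (yh l.1 / J) (2 ^ (l.2.2 - 2)) := ⟨_, rfl⟩
  have cc : (cuts.card : ℝ) ≤ 513 / η := by
    have h1 : cuts.card ≤ Act.card * 513 := by
      rw [hcuts]; exact card_biUnion_le_card_mul _ _ _ fun l _ => card_grid_le _ _
    have h2 : (cuts.card : ℝ) ≤ Act.card * 513 := by exact_mod_cast h1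
    calc (cuts.card : ℝ) ≤ 1 / η * 513 := h2.trans (by gcongr)
      _ = 513 / η := by ring
  have hLX' : ∀ z, LXout (St a b t m) Y a J1 lo1 hi1 (yh z / J) rQ σ (P1 (yh z / J)) (P2 (yh z / J))
      (Rest (yh z / J)) (Q (yh z / J)) := fun z => hLX _
  obtain ⟨π, hπ⟩ : ∃ π, π = piF a β Z cuts J1 anc fun z => Rest (yh z / J) := ⟨_, rfl⟩
  obtain ⟨B, hB⟩ : ∃ B, B = badP (St a b t m) Y a β Z J2 lo hi N (n / E') J1 anc
    fun z => Rest (yh z / J) := ⟨_, rfl⟩
  obtain ⟨cs, hcs⟩ : ∃ cs : W → I → Finset I, cs = fun j => cellOf Y (π j) := ⟨_, rfl⟩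
  have mcs : ∀ j p q, q ∈ cs j p ↔ q ∈ Y ∧ π j q = π j p := fun j p q => by
    rw [hcs]; exact mem_cellOf
  obtain ⟨bad, hbd⟩ : ∃ bad : W → Finset I → Prop, bad = fun j S => ∃ q ∈ S, B j q := ⟨_, rfl⟩
  have hbad : ∀ j, ∀ p ∈ Y, bad j (cs j p) ↔ B j p := by
    intro j p hp
    rw [hbd]
    refine ⟨fun ⟨q, hq, h⟩ => ?_, fun h => ⟨p, (mcs j p p).2 ⟨hp, rfl⟩, h⟩⟩
    rw [hB] at h ⊢
    exact badP_congr (cuts := cuts) (by have := ((mcs j p q).1 hq).2; rwa [hπ] at this) h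
  have hcs' : ∀ j, cs j = cellOf Y (piF a β Z cuts J1 anc (fun z => Rest (yh z / J)) j) := fun j => by
    rw [hcs, hπ]
  -- geometry of an active label
  have ball : ∀ l ∈ Act, ∀ p ∈ X1 l ∪ X2 Y u v r yh l, dd u v l.1 p ≤ 20 * J * 2 ^ l.2.2 := by
    intro l hl p hp
    rcases mem_union.1 hp with h | h
    · exact (lab_spec hJ (hy p) ((mX1 l p).1 h).2).2.2.2.2.1.le
    · obtain ⟨q, hq⟩ := ((mAct l).1 hl).1
      exact (mem_filter.1 h).2.1.trans (lab_spec hJ (hy q) ((mX1 l q).1 hq).2).2.2.2.2.2.le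
  have ball2 : ∀ l ∈ Act, ∀ p ∈ X1 l ∪ X2 Y u v r yh l, ∀ q ∈ X1 l ∪ X2 Y u v r yh l,
      dd u v p q ≤ 40 * J * 2 ^ l.2.2 := by
    intro l hl p hp q hq
    have h1 := dd_tri u v p l.1 q
    rw [dd_comm u v p l.1] at h1
    linarith [ball l hl p hp, ball l hl q hq]
  refine ⟨cs, bad, Act, X1, X2 Y u v r yh, ⟨
    fun j p hp => (mcs j p p).2 ⟨hp, rfl⟩, fun j p q hq => ((mcs j p q).1 hq).1, fun j p q hq => ?_,
    fun j => ?_, ?_, ?_, fun l p hp => ((mX1 l p).1 hp).1, fun l => filter_subset _ _,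
    fun l l' p h h' => Option.some_injective _ (((mX1 l p).1 h).2.symm.trans ((mX1 l' p).1 h').2),
    nact, fun l hl => ?_, fun l hl => ?_,
    fun l _ p hp q hq => lab_gap hJ (hy p) (hy q) ((mX1 l p).1 hp).2 hq,
    fun l hl p hp q hq => ?_, fun l hl p hp q hq => ?_, fun l hl p hp j => ?_, ?_⟩,
    Z, cZ', fun l hl => (((mAct l).1 hl).1).elim fun q hq =>
      (lab_spec hJ (hy q) ((mX1 l q).1 hq).2).1⟩
  · have := ((mcs j p q).1 hq).2
    rw [hcs]
    exact cellOf_congr this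
  · have h1 := card_cellOf_le'.trans (card_piF_le (Y := Y) (a := a) (β := β) (Z := Z) (cuts := cuts)
      (J1 := J1) (anc := anc) (Rest := fun z => Rest (yh z / J)) j)
    rw [← hcs'] at h1
    have h2 : ((Y.image β).card : ℝ) ≤ E + 2 := by
      rw [hβd]; exact card_box_le hG hE0.le (fun p hp => toE _ (hGE p hp)) Y
    have h3 := (Nat.cast_le (α := ℝ)).2 h1
    push_cast at h3
    have n1 : (0 : ℝ) ≤ Z.card := Nat.cast_nonneg _
    have n2 : (0 : ℝ) ≤ cuts.card := Nat.cast_nonneg _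
    refine h3.trans ?_
    calc ((Y.image β).card : ℝ) * ((Z.card + 1) * ((cuts.card + 1) * 2))
        ≤ (E + 2) * ((E + 1) * ((513 / η + 1) * 2)) :=
          mul_le_mul h2 (mul_le_mul (by linarith) (by linarith) (by linarith) (by linarith))
            (mul_nonneg (by linarith) (by linarith)) (by linarith)
      _ = 2 * (E + 2) * (E + 1) * (513 / η + 1) := by ring
  · have h1 := share_piF H hβ cZ' cc hLX' (fun _ _ => True) (fun _ _ => True) fun _ _ _ _ => trivial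
    refine le_trans (le_of_eq (sum_congr rfl fun j _ => ?_)) (h1.trans (add_le_add ?_ le_rfl))
    · rw [hcs']
      refine sum_congr ?_ fun _ _ => rfl
      ext S
      simp only [mem_filter, and_true]
    refine le_trans (sum_le_sum fun j hj => mul_le_mul_of_nonneg_right (Nat.cast_le.2 ?_)
      (Real.rpow_nonneg (H.N0 j hj).le _)) ((H.pw Y Subset.rfl).ly (fun _ _ => Nat.cast_nonneg _)
        H.g0 H.C0 H.lay.d2 N H.ε0 H.N0 H.Nn)
    exact (card_le_card fun p hp => (@mem_filter _ _ (fun _ => Classical.propDecidable _) _ _).1 hp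
      |>.1).trans (Nat.le_add_right _ _)
  · have h1 := share_piF H hβ cZ' cc hLX' bad B
      (fun j p hp h => (hbad j p hp).1 (by rw [hcs']; exact h))
    have h2 := bad_card_le H hβ hO cZ' cc hLX'
    rw [← hB] at h2
    simp only [← hcs'] at h1
    linarith
  · simp only [hμ']
    rw [← htot]
    exact ((mAct l).1 hl).2
  · simp only [hμ']
    rw [← htot]
    obtain ⟨q, hq⟩ := ((mAct l).1 hl).1
    obtain ⟨-, -, h1, h2⟩ := hcore l.1 (lab_spec hJ (hy q) ((mX1 l q).1 hq).2).1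
    rw [mul_comm, ← div_div]
    unfold X2
    rcases l with ⟨z, _ | _, s⟩
    · simpa using h2
    · simpa using h1
  · have h1 := (dy_le u v p q).trans (ball2 l hl p hp q hq)
    rw [hy, hy, ← mul_sub, abs_mul, abs_of_pos hJ] at h1
    exact le_of_mul_le_mul_left (by linarith) hJ
  · have h1 := ball2 l hl p hp q hq
    rw [hu, hv', hJd] at h1
    exact h1
  · obtain ⟨q0, hq0⟩ := ((mAct l).1 hl).1
    obtain ⟨hz, -, -, -, -, hr⟩ := lab_spec hJ (hy q0) ((mX1 l q0).1 hq0).2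
    have h1 := (dy_le u v l.1 p).trans (ball l hl p hp)
    have h2 := (hcore l.1 hz).2.1
    have h3 : J * |a p - yh l.1 / J| ≤ 40 * J * 2 ^ l.2.2 := by
      have e1 : J * |a p - yh l.1 / J| = |(v p - u p) - yh l.1| := by
        rw [hy, ← abs_of_pos hJ, ← abs_mul, abs_of_pos hJ]
        congr 1
        field_simp
      have e2 := abs_sub_le (v p - u p) (v l.1 - u l.1) (yh l.1)
      rw [abs_sub_comm (v p - u p) (v l.1 - u l.1)] at e2
      linarith
    have h4 : (2 : ℝ) ^ l.2.2 = 4 * 2 ^ (l.2.2 - 2) := by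
      rw [zpow_sub₀ (by norm_num : (2 : ℝ) ≠ 0)]; norm_num; ring
    obtain ⟨x0, m0, m1, l0, l1⟩ := grid_cell (x := yh l.1 / J) (h := 2 ^ (l.2.2 - 2)) (y := a p)
      (by positivity) (le_of_mul_le_mul_left (by rw [h4] at h3; linarith) hJ)
    refine ⟨x0, fun q hq => ?_⟩
    have e := ((mcs j p q).1 hq).2
    rw [hπ] at e
    simp only [piF, Prod.mk.injEq] at e
    have e3 := e.2.2.1
    have c0 : x0 ∈ cuts := by rw [hcuts]; exact mem_biUnion.2 ⟨l, hl, m0⟩
    have c1 : x0 + 2 ^ (l.2.2 - 2) ∈ cuts := by rw [hcuts]; exact mem_biUnion.2 ⟨l, hl, m1⟩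
    constructor
    · by_contra hn
      have : x0 ∈ cuts.filter fun x => a p < x := e3 ▸ mem_filter.2 ⟨c0, not_le.1 hn⟩
      exact absurd (mem_filter.1 this).2 (not_lt.2 l0)
    · have : x0 + 2 ^ (l.2.2 - 2) ∈ cuts.filter fun x => a q < x := e3.symm ▸ mem_filter.2 ⟨c1, l1⟩
      exact (mem_filter.1 this).2
  · -- the mass of the items without an active label
    obtain ⟨Li, hLi⟩ : ∃ Li : Finset (Lab I), Li = (Z.biUnion fun z => {z} ×ˢ ((univ : Finset Bool) ×ˢ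
      J1.biUnion (Q (yh z / J)))).filter fun l => ∑ p ∈ X1 l, μ p ≤ η * tot := ⟨_, rfl⟩
    have cLi : (Li.card : ℝ) ≤ 2 * E * J1.card * rQ := by
      have h1 : Li.card ≤ Z.card * (2 * (J1.card * rQ)) := by
        rw [hLi]
        refine (card_filter_le _ _).trans (card_biUnion_le_card_mul _ _ _ fun z _ => ?_)
        rw [card_product, card_product, card_singleton, one_mul, card_univ, Fintype.card_bool]
        exact Nat.mul_le_mul_left _ (card_biUnion_le_card_mul _ _ _ fun j hj => (hLX' z).card j hj)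
      have h2 : (Li.card : ℝ) ≤ Z.card * (2 * (J1.card * rQ)) := by exact_mod_cast h1
      calc (Li.card : ℝ) ≤ E * (2 * (J1.card * rQ)) :=
            h2.trans (mul_le_mul_of_nonneg_right cZ' (mul_nonneg zero_le_two
              (mul_nonneg (Nat.cast_nonneg _) (Nat.cast_nonneg _))))
        _ = 2 * E * J1.card * rQ := by ring
    have s1 : ∀ p ∈ Y, (∑ j ∈ J2, if anc j ∈ J1 ∧ ¬ bad j (cs j p) ∧
        ∀ l ∈ Act, p ∉ X1 l then ω j p else 0)
        ≤ (if p ∈ F then μ p else 0) + if p ∈ Li.biUnion X1 then μ p else 0 := by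
      intro p hp
      have le1 : (∑ j ∈ J2, if anc j ∈ J1 ∧ ¬ bad j (cs j p) ∧
          ∀ l ∈ Act, p ∉ X1 l then ω j p else 0) ≤ μ p := by
        rw [← hμ']
        exact sum_le_sum fun j hj => by split_ifs; exacts [le_rfl, H.ω0 j hj p hp]
      have h0 := hμ0 p hp
      by_cases x : p ∈ F
      · rw [if_pos x]
        split_ifs <;> linarith
      by_cases y : p ∈ Li.biUnion X1
      · rw [if_neg x, if_pos y]
        linarith
      rw [if_neg x, if_neg y, add_zero]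
      refine (sum_eq_zero fun j _ => if_neg ?_).le
      rintro ⟨ha, hb, hc⟩
      rw [hbad j p hp, hB] at hb
      rcases hcov p hp with h | ⟨z, hz, h1, h2⟩ | ⟨z, hz, h⟩
      · exact x h
      · have e1 : a p = a z := mul_left_cancel₀ hJ.ne' (by rw [← hy, ← hy, h1, h2])
        have e2 : b p = b z := by
          rw [hu] at h1
          simp only [e1] at h1
          linarith
        exact hb (Or.inr (Or.inr (Or.inl (H.inj p hp z (hZ hz) e1 e2 ▸ hz))))
      · obtain ⟨l, hl⟩ := lab_ne_none (a := a) (J := J) hz h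
        obtain ⟨hz', -, g1, g2, -⟩ := lab_spec hJ (hy p) hl
        have mp : p ∈ X1 l := (mX1 l p).2 ⟨hp, hl⟩
        refine y (mem_biUnion.2 ⟨l, ?_, mp⟩)
        rw [hLi]
        refine mem_filter.2 ⟨mem_biUnion.2 ⟨l.1, hz', mem_product.2 ⟨mem_singleton_self _,
          mem_product.2 ⟨mem_univ _, mem_biUnion.2 ⟨anc j, ha, ?_⟩⟩⟩⟩, ?_⟩
        · by_contra hq
          exact hb (Or.inr (Or.inr (Or.inr ⟨ha, l.1, hz', (hLX' l.1).list _ ha _ _ g1 g2 hq⟩)))
        · by_contra hq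
          exact hc l ((mAct l).2 ⟨⟨p, mp⟩, (not_le.1 hq).le⟩) mp
    have s2 : ∑ p ∈ Y, (if p ∈ F then μ p else 0) = ∑ p ∈ F, μ p := by
      rw [← sum_filter, filter_mem_eq_inter, inter_eq_right.2 hF]
    have s3 : ∑ p ∈ Y, (if p ∈ Li.biUnion X1 then μ p else 0) ≤ Li.card * (η * tot) := by
      rw [← sum_filter, filter_mem_eq_inter, inter_eq_right.2
        (biUnion_subset.2 fun l _ p hp => ((mX1 l p).1 hp).1), sum_biUnion, ← nsmul_eq_mul]
      · refine sum_le_card_nsmul _ _ _ fun l hl => ?_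
        rw [hLi] at hl
        exact (mem_filter.1 hl).2
      · intro l _ l' _ hne
        exact disjoint_left.2 fun p h h' => hne
          (Option.some_injective _ (((mX1 l p).1 h).2.symm.trans ((mX1 l' p).1 h').2))
    have s4 := massF_le (U := St a b t m) (β := β) (e := e) (B := B) (lo := lo) (hi := hi) hF H.N0 H.Nn
      H.n0 H.E'0 hth0.le H.ω0 H.supp (fun p hp h => by rw [hβd]; exact box_self hG hp h)
      (fun c => by simp only [hμ']; exact hGm c) (fun j p c h h' => by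
        rw [hB]
        exact h'.elim (fun x => Or.inl ⟨c, h, x⟩) fun x => Or.inr (Or.inl ⟨c, h, x⟩))
    have s5 : (∑ p ∈ Y, ∑ j ∈ J2, if bad j (cs j p) then ω j p else 0)
        = ∑ p ∈ Y, ∑ j ∈ J2, if B j p then ω j p else 0 :=
      sum_congr rfl fun p hp => sum_congr rfl fun j _ => by simp only [hbad j p hp]
    have s6 := sum_le_sum s1
    rw [sum_add_distrib, s2] at s6
    simp only [hμ'] at s4 ⊢
    rw [← htot]
    have s7 : (Li.card : ℝ) * (η * tot) ≤ 2 * E * J1.card * rQ * (η * tot) :=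
      mul_le_mul_of_nonneg_right cLi (mul_nonneg H.η0.le ht0.le)
    have s8 : 2 * (2 * E' * (2 * (tot / E))) = 8 * E' / E * tot := by ring
    rw [s5]
    refine s6.trans ?_
    nlinarith

theorem macro_step {a b : I → ℝ} {t m : ℕ → ℝ} {Y : Finset I} {k0 k1 : ℕ} {g ε C : ℝ}
    {J2 : Finset W} {lo hi : W → ℕ} {J1 : Finset W1} {lo1 hi1 : W1 → ℕ} {anc : W → W1}
    {N : W → ℝ} {n th1 th2 : ℝ} {rQ : ℕ} {σ : ℝ} {ω : W → I → ℝ} {E E' η : ℝ}
    (H : MacIn a b t m Y k0 k1 g ε C J2 lo hi J1 lo1 hi1 anc N n th1 th2 rQ σ ω E E' η) :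
    ∃ cs bad Act X1 X2,
      MacOut a b t m Y k0 k1 g ε C J2 lo hi J1 anc N n th1 th2 rQ σ ω E E' η cs bad Act X1 X2 := by
  obtain ⟨cs, bad, Act, X1, X2, h, -⟩ := macro_step2 H
  exact ⟨cs, bad, Act, X1, X2, h⟩

end Pool.Agent.Lib.MP_d308c3_co.Mac
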