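import Pool.Agent.Lib.MP_d308c3_co.Mac.Share
import Pool.Agent.Lib.MP_d308c3_co.Cores

/-!
Macro step, geometric part: boxes, labels, grid.
-/

set_option autoImplicit false

namespace Pool.Agent.Lib.MP_d308c3_co.Mac

open Finset Cut Ex Pool.Agent.MP_d308c3_co.Cores
open scoped Classical

variable {I : Type}

section box

variable {F : Finset I} {G : I → ℕ} {u v : I → ℝ} {e : ℕ}

/-- `p` lies in the bounding box of group `a` -/
def inBox (F : Finset I) (G : I → ℕ) (u v : I → ℝ) (a : ℕ) (p : I) : Prop :=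
  (∃ q ∈ F, G q = a ∧ u q ≤ u p) ∧ (∃ q ∈ F, G q = a ∧ u p ≤ u q) ∧
    (∃ q ∈ F, G q = a ∧ v q ≤ v p) ∧ ∃ q ∈ F, G q = a ∧ v p ≤ v q

/-- the box of parity `e` that contains `p` -/
noncomputable def box (F : Finset I) (G : I → ℕ) (u v : I → ℝ) (e : ℕ) (p : I) : Option ℕ :=
  if h : ∃ a, a % 2 = e ∧ inBox F G u v a p then some h.choose else none

theorem inBox_lt (hG : ∀ p ∈ F, ∀ q ∈ F, G p + 2 ≤ G q → u p < u q ∧ v p < v q) {a a' : ℕ} {p q : I}
    (h : inBox F G u v a p) (h' : inBox F G u v a' q) (hl : a + 2 ≤ a') : u p < u q ∧ v p < v q := by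
  obtain ⟨-, ⟨x, hx, rfl, x1⟩, -, y, hy, y0, y1⟩ := h
  obtain ⟨⟨z, hz, rfl, z1⟩, -, ⟨w, hw, w0, w1⟩, -⟩ := h'
  exact ⟨x1.trans_lt ((hG x hx z hz hl).1.trans_le z1),
    y1.trans_lt ((hG y hy w hw (by omega)).2.trans_le w1)⟩

theorem box_eq_some (hG : ∀ p ∈ F, ∀ q ∈ F, G p + 2 ≤ G q → u p < u q ∧ v p < v q) {a : ℕ} {p : I} :
    box F G u v e p = some a ↔ a % 2 = e ∧ inBox F G u v a p := by
  unfold box
  constructor
  · intro h
    split_ifs at h with h'
    obtain rfl := Option.some_injective _ h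
    exact h'.choose_spec
  · intro h
    have h' : ∃ a, a % 2 = e ∧ inBox F G u v a p := ⟨a, h⟩
    rw [dif_pos h']
    congr 1
    have hs := h'.choose_spec
    by_contra hn
    rcases lt_or_gt_of_ne hn with l | l
    · exact lt_irrefl _ (inBox_lt hG hs.2 h.2 (by omega)).1
    · exact lt_irrefl _ (inBox_lt hG h.2 hs.2 (by omega)).1

theorem box_self (hG : ∀ p ∈ F, ∀ q ∈ F, G p + 2 ≤ G q → u p < u q ∧ v p < v q) {p : I} (hp : p ∈ F)
    (he : G p % 2 = e) : box F G u v e p = some (G p) :=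
  (box_eq_some hG).2 ⟨he, ⟨p, hp, rfl, le_rfl⟩, ⟨p, hp, rfl, le_rfl⟩, ⟨p, hp, rfl, le_rfl⟩,
    p, hp, rfl, le_rfl⟩

theorem box_lt (hG : ∀ p ∈ F, ∀ q ∈ F, G p + 2 ≤ G q → u p < u q ∧ v p < v q) {a a' : ℕ} {p q : I}
    (h : box F G u v e p = some a) (h' : box F G u v e q = some a') (hl : a < a') :
    u p < u q ∧ v p < v q := by
  obtain ⟨x, h⟩ := (box_eq_some hG).1 h
  obtain ⟨y, h'⟩ := (box_eq_some hG).1 h'
  exact inBox_lt hG h h' (by omega)

theorem box_chain (hG : ∀ p ∈ F, ∀ q ∈ F, G p + 2 ≤ G q → u p < u q ∧ v p < v q) {Y : Finset I}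
    {R : I → I → Prop} (hR : ∀ p ∈ Y, ∀ q ∈ Y, R p q → u q ≤ u p ∧ v p ≤ v q)
    (tr : ∀ p ∈ Y, ∀ q ∈ Y, ∀ r ∈ Y, R p q → R q r → R p r) :
    Cut.IsChain Y R (box F G u v e) := by
  refine isChain_box hR tr (fun p _ q _ h1 h2 h3 => ?_) fun p _ q _ r _ h1 h2 a1 a2 a3 a4 => ?_
  · obtain ⟨a, ha⟩ := Option.ne_none_iff_exists'.1 h1
    obtain ⟨a', ha'⟩ := Option.ne_none_iff_exists'.1 h2
    have : a ≠ a' := fun h => h3 (by rw [ha, ha', h])
    rcases lt_or_gt_of_ne this with l | l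
    · exact Or.inl (box_lt hG ha ha' l)
    · exact Or.inr (box_lt hG ha' ha l)
  · obtain ⟨a, ha⟩ := Option.ne_none_iff_exists'.1 h1
    obtain ⟨x, ⟨-, ⟨q2, m2, g2, l2⟩, ⟨q3, m3, g3, l3⟩, -⟩⟩ := (box_eq_some hG).1 ha
    obtain ⟨-, ⟨⟨q1, m1, g1, l1⟩, -, -, q4, m4, g4, l4⟩⟩ := (box_eq_some hG).1 (h2 ▸ ha)
    rw [ha]
    exact (box_eq_some hG).2 ⟨x, ⟨q1, m1, g1, l1.trans a1⟩, ⟨q2, m2, g2, a2.trans l2⟩,
      ⟨q3, m3, g3, l3.trans a3⟩, q4, m4, g4, a4.trans l4⟩

theorem card_box_le (hG : ∀ p ∈ F, ∀ q ∈ F, G p + 2 ≤ G q → u p < u q ∧ v p < v q) {E : ℝ}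
    (hE0 : 0 ≤ E) (hE : ∀ p ∈ F, (G p : ℝ) ≤ E) (Y : Finset I) :
    ((Y.image (box F G u v e)).card : ℝ) ≤ E + 2 := by
  have h : Y.image (box F G u v e) ⊆ insert none ((range (⌊E⌋₊ + 1)).image some) := by
    intro c hc
    obtain ⟨p, -, rfl⟩ := mem_image.1 hc
    rcases h : box F G u v e p with _ | a
    · exact mem_insert_self _ _
    · obtain ⟨-, ⟨q, hq, rfl, -⟩, -⟩ := (box_eq_some hG).1 h
      exact mem_insert_of_mem (mem_image_of_mem _ (mem_range.2
        (Nat.lt_succ_of_le (Nat.le_floor (hE q hq)))))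
  have h1 := (card_le_card h).trans (card_insert_le _ _)
  have h2 := card_image_le (s := range (⌊E⌋₊ + 1)) (f := some)
  rw [card_range] at h2
  have h3 : ((Y.image (box F G u v e)).card : ℝ) ≤ (⌊E⌋₊ + 2 : ℕ) := Nat.cast_le.2 (by omega)
  have h4 := Nat.floor_le hE0
  push_cast at h3
  linarith

theorem ex_parity (F : Finset I) (G : I → ℕ) (μ : I → ℝ) :
    ∃ e, ∑ p ∈ F, μ p ≤ 2 * ∑ p ∈ F.filter (fun p => G p % 2 = e), μ p := by
  have h := sum_filter_add_sum_filter_not F (fun p => G p % 2 = 0) μ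
  rw [show (F.filter fun p => ¬ G p % 2 = 0) = F.filter fun p => G p % 2 = 1 from
    filter_congr fun p _ => by omega] at h
  rcases le_total (∑ p ∈ F.filter (fun p => G p % 2 = 0), μ p)
    (∑ p ∈ F.filter (fun p => G p % 2 = 1), μ p) with l | l
  · exact ⟨1, by linarith⟩
  · exact ⟨0, by linarith⟩

end box

section label

/-- labels: core, side, dyadic radius class -/
abbrev Lab (I : Type) := I × Bool × ℤ

variable {Z Y : Finset I} {a u v r yh : I → ℝ} {J : ℝ}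

/-- `p` is timelike for the core `z` -/
def TL (u v r yh : I → ℝ) (z p : I) : Prop := max (dd u v z p) (r z) < 10 * |(v p - u p) - yh z|

/-- the label of a timelike point -/
noncomputable def lab (Z : Finset I) (a u v r yh : I → ℝ) (J : ℝ) (p : I) : Option (Lab I) :=
  if h : ∃ z ∈ Z, TL u v r yh z p then
    some (h.choose, decide (yh h.choose / J < a p), Int.log 2 |a p - yh h.choose / J|) else none

/-- the half of the core on the other side of the median -/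
noncomputable def X2 (Y : Finset I) (u v r yh : I → ℝ) (l : Lab I) : Finset I :=
  Y.filter fun p => dd u v l.1 p ≤ r l.1 ∧ if l.2.1 then v p - u p ≤ yh l.1 else yh l.1 ≤ v p - u p

theorem lab_ne_none {p z : I} (hz : z ∈ Z) (h : TL u v r yh z p) :
    ∃ l, lab Z a u v r yh J p = some l := by
  unfold lab
  rw [dif_pos ⟨z, hz, h⟩]
  exact ⟨_, rfl⟩

theorem lab_spec (hJ : 0 < J) {p : I} (hy : v p - u p = J * a p) {l : Lab I}
    (h : lab Z a u v r yh J p = some l) :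
    l.1 ∈ Z ∧ (l.2.1 = true ↔ yh l.1 / J < a p) ∧ (2 : ℝ) ^ l.2.2 ≤ |a p - yh l.1 / J| ∧
      |a p - yh l.1 / J| < (2 : ℝ) ^ (l.2.2 + 1) ∧ dd u v l.1 p < 20 * J * 2 ^ l.2.2 ∧
      r l.1 < 20 * J * 2 ^ l.2.2 := by
  unfold lab at h
  split_ifs at h with h'
  obtain rfl := Option.some_injective _ h
  obtain ⟨hz, hT⟩ := h'.choose_spec
  set z := h'.choose
  unfold TL at hT
  have e : |(v p - u p) - yh z| = J * |a p - yh z / J| := by
    rw [hy, ← abs_of_pos hJ, ← abs_mul, abs_of_pos hJ]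
    congr 1
    field_simp
  rw [e] at hT
  have h0 : 0 < |a p - yh z / J| := by
    have := (dd_nonneg u v z p).trans (le_max_left _ (r z))
    by_contra hn
    nlinarith [abs_nonneg (a p - yh z / J)]
  have h1 : (2 : ℝ) ^ Int.log 2 |a p - yh z / J| ≤ |a p - yh z / J| := by
    exact_mod_cast Int.zpow_log_le_self (b := 2) (by norm_num) h0
  have h2 : |a p - yh z / J| < (2 : ℝ) ^ (Int.log 2 |a p - yh z / J| + 1) := by
    exact_mod_cast Int.lt_zpow_succ_log_self (b := 2) (by norm_num) |a p - yh z / J|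
  have h3 : 10 * (J * |a p - yh z / J|) < 20 * J * 2 ^ Int.log 2 |a p - yh z / J| := by
    rw [zpow_add_one₀ (by norm_num : (2 : ℝ) ≠ 0)] at h2
    nlinarith
  exact ⟨hz, by simp, h1, h2, (le_max_left _ _).trans_lt (hT.trans h3),
    (le_max_right _ _).trans_lt (hT.trans h3)⟩

theorem lab_gap (hJ : 0 < J) {p q : I} (hy : v p - u p = J * a p) (hy' : v q - u q = J * a q)
    {l : Lab I} (h : lab Z a u v r yh J p = some l) (hq : q ∈ X2 Y u v r yh l) :
    (2 : ℝ) ^ l.2.2 ≤ |a p - a q| := by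
  obtain ⟨-, h1, h2, -⟩ := lab_spec hJ hy h
  have h3 := (mem_filter.1 hq).2.2
  rw [hy'] at h3
  split_ifs at h3 with hs
  · have a1 := h1.1 hs
    have a2 : a q ≤ yh l.1 / J := by rw [le_div_iff₀ hJ]; linarith
    rw [abs_of_pos (by linarith)] at h2
    rw [abs_of_pos (by linarith)]
    linarith
  · have a1 : a p ≤ yh l.1 / J := not_lt.1 fun x => hs (h1.2 x)
    have a2 : yh l.1 / J ≤ a q := by rw [div_le_iff₀ hJ]; linarith
    rw [abs_of_nonpos (by linarith)] at h2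
    rw [abs_of_nonpos (by linarith)]
    linarith

end label

section grid

/-- the grid of mesh `h` around `x` -/
noncomputable def grid (x h : ℝ) : Finset ℝ := (Icc (-256 : ℤ) 256).image fun i : ℤ => x + i * h

theorem card_grid_le (x h : ℝ) : (grid x h).card ≤ 513 := by
  refine card_image_le.trans ?_
  simp

theorem grid_cell {x h y : ℝ} (hh : 0 < h) (hy : |y - x| ≤ 160 * h) :
    ∃ x0 ∈ grid x h, x0 + h ∈ grid x h ∧ x0 ≤ y ∧ y < x0 + h := by
  obtain ⟨h1, h2⟩ := abs_le.1 hy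
  have a1 := Int.floor_le ((y - x) / h)
  have a2 := Int.lt_floor_add_one ((y - x) / h)
  have b1 : (-160 : ℤ) ≤ ⌊(y - x) / h⌋ := by
    rw [Int.le_floor, le_div_iff₀ hh]; push_cast; linarith
  have b2 : ⌊(y - x) / h⌋ ≤ 160 := by
    rw [Int.floor_le_iff, div_lt_iff₀ hh]; push_cast; linarith
  rw [le_div_iff₀ hh] at a1
  rw [div_lt_iff₀ hh] at a2
  refine ⟨x + ⌊(y - x) / h⌋ * h, mem_image.2 ⟨_, mem_Icc.2 ⟨by omega, by omega⟩, rfl⟩,
    mem_image.2 ⟨⌊(y - x) / h⌋ + 1, mem_Icc.2 ⟨by omega, by omega⟩, by push_cast; ring⟩,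
    by linarith, by linarith⟩

end grid

section cells

variable {Λ : Type} {Y : Finset I} {π : I → Λ}

/-- the cell of `p` as a subset of `Y` -/
noncomputable def cellOf (Y : Finset I) (π : I → Λ) (p : I) : Finset I := Y.filter fun q => π q = π p

theorem image_cellOf : Y.image (cellOf Y π) = (Y.image π).image fun c => Y.filter fun q => π q = c := by
  rw [image_image]; rfl

theorem card_cellOf_le : (Y.image (cellOf Y π)).card ≤ (Y.image π).card := by
  rw [image_cellOf]; exact card_image_le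

theorem sum_cellOf_le (f : Finset I → ℕ) (P : Finset I → Prop) :
    ∑ S ∈ (Y.image (cellOf Y π)).filter P, f S
      ≤ ∑ c ∈ (Y.image π).filter fun c => P (Y.filter fun q => π q = c),
          f (Y.filter fun q => π q = c) := by
  rw [image_cellOf, filter_image]
  exact sum_image_le_of_nonneg fun _ _ => Nat.zero_le _

end cells

end Pool.Agent.Lib.MP_d308c3_co.Mac
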