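import Pool.Agent.Lib.MP_d308c3_co.Cut2
import Pool.Agent.Lib.MP_d308c3_co.Expo

/-!
Macro step, abstract part: weighted drivers of a labelling that depends on the window; boxes.
-/

set_option autoImplicit false

namespace Pool.Agent.Lib.MP_d308c3_co.Mac

open Finset Cut Ex
open scoped Classical

variable {I W W1 : Type} {U : ℕ → I → Prop} {Y : Finset I} {R : I → I → Prop} {k0 k1 : ℕ}

/-- the two layers of windows of a macro step -/
structure Lay (J2 : Finset W) (lo hi : W → ℕ) (J1 : Finset W1) (lo1 hi1 : W1 → ℕ) (anc : W → W1)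
    (k0 k1 : ℕ) : Prop where
  d2 : Dis J2 lo hi k0 k1
  d1 : Dis J1 lo1 hi1 k0 k1
  sub : ∀ j ∈ J2, anc j ∈ J1 → lo1 (anc j) ≤ lo j ∧ hi j ≤ hi1 (anc j)

variable {J2 : Finset W} {lo hi : W → ℕ} {J1 : Finset W1} {lo1 hi1 : W1 → ℕ} {anc : W → W1}

theorem Lay.under (h : Lay J2 lo hi J1 lo1 hi1 anc k0 k1) {j1 : W1} (hj : j1 ∈ J1) :
    Dis (J2.filter fun j => anc j = j1) lo hi (lo1 j1) (hi1 j1) := by
  refine ⟨fun j x => h.d2.lt j (mem_filter.1 x).1, fun j x => ?_, fun j x => ?_,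
    fun j x k y => h.d2.dis j (mem_filter.1 x).1 k (mem_filter.1 y).1⟩
  · obtain ⟨y, e⟩ := mem_filter.1 x
    subst e
    exact (h.sub j y hj).1
  · obtain ⟨y, e⟩ := mem_filter.1 x
    subst e
    exact (h.sub j y hj).2

/-- a sum over the lower windows with an ancestor in `J1`, grouped by the ancestor -/
theorem sum_anc {M : Type*} [AddCommMonoid M] (f : W → M) :
    ∑ j ∈ J2, (if anc j ∈ J1 then f j else 0) = ∑ j1 ∈ J1, ∑ j ∈ J2.filter fun j => anc j = j1, f j := by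
  rw [← sum_filter, ← sum_fiberwise_of_maps_to (s := J2.filter fun j => anc j ∈ J1) (t := J1) (g := anc)
    (fun j hj => (mem_filter.1 hj).2)]
  refine sum_congr rfl fun j1 hj1 => sum_congr ?_ fun _ _ => rfl
  ext j
  simp only [mem_filter]
  exact ⟨fun h => ⟨h.1.1, h.2⟩, fun h => ⟨⟨h.1, h.2 ▸ hj1⟩, h.2⟩⟩

/-- separation of a window dependent labelling by a fixed family and by the family of the ancestor -/
def Sep {Λ ι0 ι1 : Type*} (Y : Finset I) (R : I → I → Prop) (J2 : Finset W) (J1 : Finset W1)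
    (anc : W → W1) (s0 : Finset ι0) (L0 : ι0 → I → Prop) (s1 : W1 → Finset ι1) (L1 : ι1 → I → Prop)
    (π : W → I → Λ) : Prop :=
  ∀ j ∈ J2, ∀ p ∈ Y, ∀ q ∈ Y, R p q → π j p ≠ π j q →
    (∃ i ∈ s0, L0 i p ∧ ¬ L0 i q) ∨ (anc j ∈ J1 ∧ ∃ i ∈ s1 (anc j), L1 i p ∧ ¬ L1 i q)

/-- unweighted drivers of all cells of all windows -/
theorem drv {Λ ι0 ι1 : Type*} [DecidableEq Λ] (hL : Lay J2 lo hi J1 lo1 hi1 anc k0 k1)
    (hT : TP U Y R k0 k1) {s0 : Finset ι0} {L0 : ι0 → I → Prop} (h0 : ∀ i ∈ s0, Down Y R (L0 i))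
    {s1 : W1 → Finset ι1} {L1 : ι1 → I → Prop} {π : W → I → Λ}
    (hS : Sep Y R J2 J1 anc s0 L0 s1 L1 π) (T : W → Finset Λ) :
    ∑ j ∈ J2, ∑ c ∈ T j, Dr U (Y.filter fun p => π j p = c) (lo j) (hi j)
      ≤ (1 + 2 * s0.card) * Phi U Y k0 k1
        + 2 * ∑ j1 ∈ J1, ∑ i ∈ s1 j1, flux U Y (L1 i) (lo1 j1) (hi1 j1) := by
  have step : ∀ j ∈ J2, ∑ c ∈ T j, Dr U (Y.filter fun p => π j p = c) (lo j) (hi j)
      ≤ Dr U Y (lo j) (hi j) + 2 * ∑ i ∈ s0, flux U Y (L0 i) (lo j) (hi j)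
        + 2 * (if anc j ∈ J1 then ∑ i ∈ s1 (anc j), flux U Y (L1 i) (lo j) (hi j) else 0) := by
    intro j hj
    have h := cut (hT.mono Subset.rfl (hL.d2.lo_le j hj) (hL.d2.le_hi j hj)) (π j) (T j)
      (s0.disjSum (if anc j ∈ J1 then s1 (anc j) else ∅)) (Sum.elim L0 L1) (by
        intro p hp q hq hR hne
        rcases hS j hj p hp q hq hR hne with ⟨i, hi, x⟩ | ⟨ha, i, hi, x⟩
        · exact ⟨Sum.inl i, inl_mem_disjSum.2 hi, x⟩
        · exact ⟨Sum.inr i, inr_mem_disjSum.2 (by rw [if_pos ha]; exact hi), x⟩)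
    rw [sum_disjSum] at h
    simp only [Sum.elim_inl, Sum.elim_inr] at h
    split_ifs at h ⊢ with ha
    · omega
    · simp only [sum_empty] at h
      omega
  refine (sum_le_sum step).trans ?_
  rw [sum_add_distrib, sum_add_distrib, ← mul_sum, ← mul_sum, sum_anc, sum_comm (s := J2)]
  have hin : ∀ j ∈ J2, k0 ≤ lo j ∧ hi j ≤ k1 := fun j hj => ⟨hL.d2.lo_le j hj, hL.d2.le_hi j hj⟩
  have a1 : ∑ j ∈ J2, Dr U Y (lo j) (hi j) ≤ Phi U Y k0 k1 :=
    (sum_Dr_le hin hL.d2.dis).trans (Nat.le_add_left _ _)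
  have a2 : ∑ i ∈ s0, ∑ j ∈ J2, flux U Y (L0 i) (lo j) (hi j) ≤ s0.card * Phi U Y k0 k1 := by
    simpa using sum_le_card_nsmul s0 _ _ fun i hi =>
      (sum_flux_le hin hL.d2.dis).trans (flux_le_Phi hT (h0 i hi))
  have a3 : ∑ j1 ∈ J1, ∑ j ∈ J2.filter (fun j => anc j = j1),
      ∑ i ∈ s1 (anc j), flux U Y (L1 i) (lo j) (hi j)
      ≤ ∑ j1 ∈ J1, ∑ i ∈ s1 j1, flux U Y (L1 i) (lo1 j1) (hi1 j1) := by
    refine sum_le_sum fun j1 hj1 => ?_
    rw [sum_congr rfl (g := fun j => ∑ i ∈ s1 j1, flux U Y (L1 i) (lo j) (hi j))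
      (fun j hj => by rw [(mem_filter.1 hj).2]), sum_comm]
    have hu := hL.under hj1
    exact sum_le_sum fun i _ => sum_flux_le (fun j hj => ⟨hu.lo_le j hj, hu.le_hi j hj⟩) hu.dis
  nlinarith

/-- weights at most `th` -/
theorem wsum_le {N : W → ℝ} {th g B : ℝ} (hg : 0 ≤ g) (hN : ∀ j ∈ J2, 0 < N j)
    (hth : ∀ j ∈ J2, N j ≤ th) (hth0 : 0 ≤ th) {f : W → ℕ} (hB : ((∑ j ∈ J2, f j : ℕ) : ℝ) ≤ B) :
    ∑ j ∈ J2, (f j : ℝ) * N j ^ g ≤ th ^ g * B := by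
  calc ∑ j ∈ J2, (f j : ℝ) * N j ^ g ≤ ∑ j ∈ J2, (f j : ℝ) * th ^ g :=
        sum_le_sum fun j hj => mul_le_mul_of_nonneg_left
          (Real.rpow_le_rpow (hN j hj).le (hth j hj) hg) (Nat.cast_nonneg _)
    _ = th ^ g * ((∑ j ∈ J2, f j : ℕ) : ℝ) := by rw [← sum_mul, mul_comm, Nat.cast_sum]
    _ ≤ th ^ g * B := mul_le_mul_of_nonneg_left hB (Real.rpow_nonneg hth0 _)

/-- `Phi` of the cells whose points all satisfy `P` -/
theorem cells_le {Λ : Type*} [DecidableEq Λ] (π : I → Λ) (T : Finset Λ) (P : I → Prop)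
    [DecidablePred P] (hP : ∀ p ∈ Y, π p ∈ T → P p) :
    ∑ c ∈ T, Phi U (Y.filter fun p => π p = c) k0 k1
      ≤ ((Ch U Y k0 k1).filter P).card + ∑ c ∈ T, Dr U (Y.filter fun p => π p = c) k0 k1 := by
  unfold Phi
  rw [sum_add_distrib]
  refine Nat.add_le_add_right (le_trans (sum_le_sum fun c hc => ?_)
    (sum_card_cells_le π T ((Ch U Y k0 k1).filter P))) _
  rw [Ch_filter]
  refine card_le_card fun p hp => ?_
  obtain ⟨hp, e⟩ := mem_filter.1 hp
  exact mem_filter.2 ⟨mem_filter.2 ⟨hp, hP p (Ch_subset hp) (e ▸ hc)⟩, e⟩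

section box

variable {β : I → Option ℕ}

/-- box `a` is touched in the window -/
def Touch (U : ℕ → I → Prop) (Y : Finset I) (β : I → Option ℕ) (l h a : ℕ) : Prop :=
  (Ch U (Y.filter fun p => β p = some a) l h).Nonempty

/-- box `a` is a middle box of the window -/
def Mid (U : ℕ → I → Prop) (Y : Finset I) (β : I → Option ℕ) (l h a : ℕ) : Prop :=
  (∃ a', a' < a ∧ Touch U Y β l h a') ∧ ∃ a', a < a' ∧ Touch U Y β l h a'

/-- box `a` is an extreme box of the window -/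
def Ext (U : ℕ → I → Prop) (Y : Finset I) (β : I → Option ℕ) (l h a : ℕ) : Prop :=
  Touch U Y β l h a ∧ ¬ Mid U Y β l h a

theorem card_ext_le (A : Finset ℕ) (l h : ℕ) : (A.filter fun a => Ext U Y β l h a).card ≤ 2 := by
  by_contra hn
  obtain ⟨x, y, z, hx, hy, hz, h1, h2, h3⟩ := two_lt_card_iff.1 (not_le.1 hn)
  have key : ∀ x y z, Ext U Y β l h x → Ext U Y β l h y → Ext U Y β l h z → x < y → y < z → False :=
    fun x y z a b c d e => b.2 ⟨⟨x, d, a.1⟩, z, e, c.1⟩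
  have a := (mem_filter.1 hx).2
  have b := (mem_filter.1 hy).2
  have c := (mem_filter.1 hz).2
  rcases lt_or_gt_of_ne h1 with e1 | e1 <;> rcases lt_or_gt_of_ne h2 with e2 | e2 <;>
    rcases lt_or_gt_of_ne h3 with e3 | e3
  · exact key x y z a b c e1 e3
  · exact key x z y a c b e2 e3
  · omega
  · exact key z x y c a b e2 e1
  · exact key y x z b a c e1 e2
  · omega
  · exact key y z x b c a e3 e2
  · exact key z y x c b a e3 e1

/-- the boxes are ordered: a state that contains a point of a lower box contains every higher box -/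
def Ord (U : ℕ → I → Prop) (Y : Finset I) (β : I → Option ℕ) (k0 k1 : ℕ) : Prop :=
  ∀ p ∈ Y, ∀ q ∈ Y, ∀ a a', β p = some a → β q = some a' → a < a' →
    ∀ k, k0 ≤ k → k ≤ k1 → U k p → U k q

theorem mid_le (hO : Ord U Y β k0 k1) {l h a : ℕ} (h0 : k0 ≤ l) (h1 : h ≤ k1)
    (hm : Mid U Y β l h a) :
    (Y.filter fun p => β p = some a).card ≤ Dr U (Y.filter fun p => β p = some a) l h := by
  obtain ⟨⟨a1, x1, y1⟩, a2, x2, y2⟩ := hm
  refine middle y1 y2 (fun k c d p hp q hq => ?_) fun k c d p hp q hq => ?_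
  · exact hO p (mem_filter.1 hp).1 q (mem_filter.1 hq).1 _ _ (mem_filter.1 hp).2 (mem_filter.1 hq).2 x1
      k (h0.trans c) (d.trans h1)
  · exact hO p (mem_filter.1 hp).1 q (mem_filter.1 hq).1 _ _ (mem_filter.1 hp).2 (mem_filter.1 hq).2 x2
      k (h0.trans c) (d.trans h1)

/-- points in middle boxes are paid by drivers -/
theorem mid_card_le (hO : Ord U Y β k0 k1) {l h : ℕ} (h0 : k0 ≤ l) (h1 : h ≤ k1) :
    (Y.filter fun p => ∃ a, β p = some a ∧ Mid U Y β l h a).card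
      ≤ ∑ c ∈ Y.image β, Dr U (Y.filter fun p => β p = c) l h := by
  rw [card_eq_sum_card_fiberwise (f := β) (t := Y.image β)
    (fun p hp => mem_coe.2 (mem_image_of_mem _ (mem_filter.1 (mem_coe.1 hp)).1))]
  refine sum_le_sum fun c _ => ?_
  rcases ((Y.filter fun p => ∃ a, β p = some a ∧ Mid U Y β l h a).filter
    fun p => β p = c).eq_empty_or_nonempty with e | ⟨p, hp⟩
  · rw [e]; exact Nat.zero_le _
  · obtain ⟨hp, e'⟩ := mem_filter.1 hp
    obtain ⟨-, a, e, hm⟩ := mem_filter.1 hp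
    rw [← e', e]
    exact (card_le_card (filter_subset_filter _ (filter_subset _ _))).trans (mid_le hO h0 h1 hm)

/-- total weight of the windows in which box `a` is extreme -/
noncomputable def nExt (U : ℕ → I → Prop) (Y : Finset I) (β : I → Option ℕ) (J2 : Finset W)
    (lo hi : W → ℕ) (N : W → ℝ) (a : ℕ) : ℝ :=
  ∑ j ∈ J2.filter fun j => Ext U Y β (lo j) (hi j) a, N j

theorem sum_nExt_le {N : W → ℝ} (hN : ∀ j ∈ J2, 0 < N j) (A : Finset ℕ) :
    ∑ a ∈ A, nExt U Y β J2 lo hi N a ≤ 2 * ∑ j ∈ J2, N j := by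
  unfold nExt
  simp only [sum_filter]
  rw [sum_comm, mul_sum]
  refine sum_le_sum fun j hj => ?_
  rw [← sum_filter, sum_const, nsmul_eq_mul]
  exact mul_le_mul_of_nonneg_right (by exact_mod_cast card_ext_le A _ _) (hN j hj).le

/-- at most `2 E'` big boxes -/
theorem card_big_le {N : W → ℝ} {n E' : ℝ} (hN : ∀ j ∈ J2, 0 < N j) (hn : ∑ j ∈ J2, N j ≤ n)
    (hn0 : 0 < n) (hE : 0 < E') (A : Finset ℕ) :
    ((A.filter fun a => n / E' < nExt U Y β J2 lo hi N a).card : ℝ) ≤ 2 * E' := by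
  have h1 := sum_nExt_le (U := U) (Y := Y) (β := β) (lo := lo) (hi := hi) hN
    (A.filter fun a => n / E' < nExt U Y β J2 lo hi N a)
  have h2 := card_nsmul_le_sum (A.filter fun a => n / E' < nExt U Y β J2 lo hi N a)
    (nExt U Y β J2 lo hi N) (n / E') fun a ha => (mem_filter.1 ha).2.le
  rw [nsmul_eq_mul, ← mul_div_assoc, div_le_iff₀ hE] at h2
  refine le_of_mul_le_mul_right ?_ hn0
  nlinarith

/-- small extreme boxes, weighted -/
theorem small_le {g ε C : ℝ} (hg : 0 ≤ g) (hε : 0 < ε) (hC : 0 ≤ C)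
    (hP : ∀ Z ⊆ Y, PW (fun i j => (Phi U Z i j : ℝ)) g C) (hD : Dis J2 lo hi k0 k1)
    (hT : TP U Y R k0 k1) (hβ : Cut.IsChain Y R β) {N : W → ℝ} (hN : ∀ j ∈ J2, 0 < N j) {th : ℝ}
    (hth : 0 ≤ th) :
    ∑ j ∈ J2, (((Ch U Y (lo j) (hi j)).filter fun p => ∃ a, β p = some a ∧ Ext U Y β (lo j) (hi j) a ∧
        nExt U Y β J2 lo hi N a ≤ th).card : ℝ) * N j ^ (g + ε)
      ≤ 5 * (C * 8 ^ g / (1 - 2 ^ (-ε))) * Phi U Y k0 k1 * th ^ (g + ε) := by
  set A : Finset ℕ := ((Y.image β).biUnion fun c => c.toFinset).filter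
    fun a => nExt U Y β J2 lo hi N a ≤ th with hA
  have hC1 : 0 ≤ C * 8 ^ g / (1 - 2 ^ (-ε)) := by
    have : (2 : ℝ) ^ (-ε) < 1 := Real.rpow_lt_one_of_one_lt_of_neg (by norm_num) (by linarith)
    exact div_nonneg (by positivity) (by linarith)
  have s1 : ∀ j ∈ J2, (((Ch U Y (lo j) (hi j)).filter fun p => ∃ a, β p = some a ∧
      Ext U Y β (lo j) (hi j) a ∧ nExt U Y β J2 lo hi N a ≤ th).card : ℝ) * N j ^ (g + ε)
      ≤ ∑ a ∈ A, if Ext U Y β (lo j) (hi j) a then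
        (Phi U (Y.filter fun p => β p = some a) (lo j) (hi j) : ℝ) * N j ^ (g + ε) else 0 := by
    intro j hj
    rw [← sum_filter, ← sum_mul]
    refine mul_le_mul_of_nonneg_right ?_ (Real.rpow_nonneg (hN j hj).le _)
    rw [← Nat.cast_sum]
    refine Nat.cast_le.2 (le_trans (card_le_card (t := (A.filter fun a => Ext U Y β (lo j) (hi j) a).biUnion
      fun a => Ch U (Y.filter fun p => β p = some a) (lo j) (hi j)) fun p hp => ?_)
      (card_biUnion_le.trans (sum_le_sum fun a _ => Nat.le_add_right _ _)))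
    obtain ⟨hp, a, e, x, y⟩ := mem_filter.1 hp
    refine mem_biUnion.2 ⟨a, mem_filter.2 ⟨mem_filter.2 ⟨mem_biUnion.2
      ⟨β p, mem_image_of_mem _ (Ch_subset hp), by simp [e]⟩, y⟩, x⟩, ?_⟩
    rw [Ch_filter]
    exact mem_filter.2 ⟨hp, e⟩
  refine (sum_le_sum s1).trans ?_
  rw [sum_comm]
  have s2 : ∀ a ∈ A, (∑ j ∈ J2, if Ext U Y β (lo j) (hi j) a then
      (Phi U (Y.filter fun p => β p = some a) (lo j) (hi j) : ℝ) * N j ^ (g + ε) else 0)
      ≤ C * 8 ^ g / (1 - 2 ^ (-ε)) * (Phi U (Y.filter fun p => β p = some a) k0 k1 : ℝ) * th ^ (g + ε) := by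
    intro a ha
    rw [← sum_filter]
    exact (hP _ (filter_subset _ _)).ly (fun _ _ => Nat.cast_nonneg _) hg hC
      (hD.mono (filter_subset _ _)) N hε (fun j hj => hN j (mem_filter.1 hj).1) (mem_filter.1 ha).2
  refine (sum_le_sum s2).trans ?_
  rw [← sum_mul, ← mul_sum]
  refine mul_le_mul_of_nonneg_right ?_ (Real.rpow_nonneg hth _)
  have s3 := hβ.cut_Phi hT (A.image some)
  rw [sum_image fun _ _ _ _ h => Option.some_injective _ h] at s3
  have s4 : ∑ a ∈ A, (Phi U (Y.filter fun p => β p = some a) k0 k1 : ℝ) ≤ 5 * Phi U Y k0 k1 := by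
    exact_mod_cast s3
  nlinarith [mul_le_mul_of_nonneg_left s4 hC1]

end box

/-- the part of `Y` that depends on the ancestor window, weighted -/
theorem rest_le {g ε C : ℝ} (hg : 0 ≤ g) (hε : 0 < ε) (hC : 0 ≤ C)
    (hP : ∀ Z ⊆ Y, PW (fun i j => (Phi U Z i j : ℝ)) g C) (hL : Lay J2 lo hi J1 lo1 hi1 anc k0 k1)
    {N : W → ℝ} (hN : ∀ j ∈ J2, 0 < N j) {th B : ℝ} (hth0 : 0 ≤ th)
    (hth : ∀ j1 ∈ J1, ∑ j ∈ J2.filter (fun j => anc j = j1), N j ≤ th) (P : W1 → I → Prop)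
    (hB : ∑ j1 ∈ J1, (Phi U (Y.filter (P j1)) (lo1 j1) (hi1 j1) : ℝ) ≤ B) :
    ∑ j ∈ J2, (((Ch U Y (lo j) (hi j)).filter fun p => anc j ∈ J1 ∧ P (anc j) p).card : ℝ) * N j ^ (g + ε)
      ≤ C * 8 ^ g / (1 - 2 ^ (-ε)) * th ^ (g + ε) * B := by
  have hC1 : 0 ≤ C * 8 ^ g / (1 - 2 ^ (-ε)) := by
    have : (2 : ℝ) ^ (-ε) < 1 := Real.rpow_lt_one_of_one_lt_of_neg (by norm_num) (by linarith)
    exact div_nonneg (by positivity) (by linarith)
  have s1 : ∀ j ∈ J2, (((Ch U Y (lo j) (hi j)).filter fun p => anc j ∈ J1 ∧ P (anc j) p).card : ℝ)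
      * N j ^ (g + ε) ≤ if anc j ∈ J1 then
        (Phi U (Y.filter (P (anc j))) (lo j) (hi j) : ℝ) * N j ^ (g + ε) else 0 := by
    intro j hj
    split_ifs with ha
    · refine mul_le_mul_of_nonneg_right (Nat.cast_le.2 ?_) (Real.rpow_nonneg (hN j hj).le _)
      refine le_trans (card_le_card fun p hp => ?_) (Nat.le_add_right _ _)
      rw [Ch_filter]
      exact mem_filter.2 ⟨(mem_filter.1 hp).1, (mem_filter.1 hp).2.2⟩
    · simp [ha]
  refine (sum_le_sum s1).trans ?_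
  rw [sum_anc]
  have s2 : ∀ j1 ∈ J1, ∑ j ∈ J2.filter (fun j => anc j = j1),
      (Phi U (Y.filter (P (anc j))) (lo j) (hi j) : ℝ) * N j ^ (g + ε)
      ≤ C * 8 ^ g / (1 - 2 ^ (-ε)) * (Phi U (Y.filter (P j1)) (lo1 j1) (hi1 j1) : ℝ) * th ^ (g + ε) := by
    intro j1 hj1
    rw [sum_congr rfl (g := fun j => (Phi U (Y.filter (P j1)) (lo j) (hi j) : ℝ) * N j ^ (g + ε))
      (fun j hj => by rw [(mem_filter.1 hj).2])]
    exact (hP _ (filter_subset _ _)).ly (fun _ _ => Nat.cast_nonneg _) hg hC (hL.under hj1) N hε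
      (fun j hj => hN j (mem_filter.1 hj).1) (hth j1 hj1)
  refine (sum_le_sum s2).trans ?_
  rw [← sum_mul, ← mul_sum, mul_right_comm]
  exact mul_le_mul_of_nonneg_left hB (mul_nonneg hC1 (Real.rpow_nonneg hth0 _))

end Pool.Agent.Lib.MP_d308c3_co.Mac
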