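import Pool.Agent.Lib.MP_d308c3_co.Mac.Defs

/-!
The macro step: the labelling and its shares.
-/

set_option autoImplicit false

namespace Pool.Agent.Lib.MP_d308c3_co.Mac

open Finset Cut Ex
open scoped Classical

variable {I W W1 : Type}

/-- which marked point, if any -/
noncomputable def hv (Z : Finset I) (p : I) : Option I := if p ∈ Z then some p else none

/-- the bit: in one of the rests of the ancestor window -/
def bit (a : I → ℝ) (Z : Finset I) (J1 : Finset W1) (anc : W → W1) (Rest : I → W1 → ℝ → Prop)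
    (j : W) (p : I) : Prop := anc j ∈ J1 ∧ ∃ z ∈ Z, Rest z (anc j) (a p)

/-- the labelling of the macro step -/
noncomputable def piF (a : I → ℝ) (β : I → Option ℕ) (Z : Finset I) (cuts : Finset ℝ)
    (J1 : Finset W1) (anc : W → W1) (Rest : I → W1 → ℝ → Prop) (j : W) (p : I) :
    Option ℕ × Option I × Finset ℝ × Prop :=
  (β p, hv Z p, cuts.filter fun x => a p < x, bit a Z J1 anc Rest j p)

/-- bad points of a window -/
def badP (U : ℕ → I → Prop) (Y : Finset I) (a : I → ℝ) (β : I → Option ℕ) (Z : Finset I)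
    (J2 : Finset W) (lo hi : W → ℕ) (N : W → ℝ) (th : ℝ) (J1 : Finset W1) (anc : W → W1)
    (Rest : I → W1 → ℝ → Prop) (j : W) (p : I) : Prop :=
  (∃ c, β p = some c ∧ Mid U Y β (lo j) (hi j) c) ∨
    (∃ c, β p = some c ∧ Ext U Y β (lo j) (hi j) c ∧ nExt U Y β J2 lo hi N c ≤ th) ∨
    p ∈ Z ∨ bit a Z J1 anc Rest j p

theorem badP_congr {U : ℕ → I → Prop} {Y : Finset I} {a : I → ℝ} {β : I → Option ℕ} {Z : Finset I}
    {J2 : Finset W} {lo hi : W → ℕ} {N : W → ℝ} {th : ℝ} {J1 : Finset W1} {anc : W → W1}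
    {Rest : I → W1 → ℝ → Prop} {cuts : Finset ℝ} {j : W} {p q : I}
    (e : piF a β Z cuts J1 anc Rest j p = piF a β Z cuts J1 anc Rest j q)
    (h : badP U Y a β Z J2 lo hi N th J1 anc Rest j p) :
    badP U Y a β Z J2 lo hi N th J1 anc Rest j q := by
  simp only [piF, Prod.mk.injEq] at e
  obtain ⟨e1, e2, -, e4⟩ := e
  unfold badP at *
  rw [← e1, ← e4]
  refine h.imp id (Or.imp id (Or.imp (fun hp => ?_) id))
  by_contra hq
  simp [hv, hp, hq] at e2

theorem card_piF_le {Y : Finset I} {a : I → ℝ} {β : I → Option ℕ} {Z : Finset I} {cuts : Finset ℝ}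
    {J1 : Finset W1} {anc : W → W1} {Rest : I → W1 → ℝ → Prop} (j : W) :
    (Y.image (piF a β Z cuts J1 anc Rest j)).card
      ≤ (Y.image β).card * ((Z.card + 1) * ((cuts.card + 1) * 2)) := by
  have h : Y.image (piF a β Z cuts J1 anc Rest j) ⊆ (Y.image β) ×ˢ ((insert none (Z.image some)) ×ˢ
      ((Y.image fun p => cuts.filter fun x => a p < x) ×ˢ (univ : Finset Prop))) := by
    intro c hc
    obtain ⟨p, hp, rfl⟩ := mem_image.1 hc
    refine mem_product.2 ⟨mem_image_of_mem _ hp, mem_product.2 ⟨?_, mem_product.2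
      ⟨mem_image_of_mem (fun p => cuts.filter fun x => a p < x) hp, mem_univ _⟩⟩⟩
    by_cases h : p ∈ Z <;> simp [piF, hv, h]
  refine (card_le_card h).trans ?_
  rw [card_product, card_product, card_product]
  have h1 : (insert none (Z.image some)).card ≤ Z.card + 1 :=
    (card_insert_le _ _).trans (Nat.succ_le_succ card_image_le)
  have h2 : (Y.image fun p => cuts.filter fun x => a p < x).card ≤ cuts.card + 1 := by
    have := card_cells_chain (Y := Y) (s := cuts) (L := fun x p => a p < x) (fun x _ y _ => by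
      rcases le_total x y with l | l
      · exact Or.inl fun p _ h => h.trans_le l
      · exact Or.inr fun p _ h => h.trans_le l)
    convert this
  have h3 : (univ : Finset Prop).card = 2 := by simp
  rw [h3]
  gcongr

variable {a b : I → ℝ} {t m : ℕ → ℝ} {Y : Finset I} {k0 k1 : ℕ} {g ε C : ℝ}
  {J2 : Finset W} {lo hi : W → ℕ} {J1 : Finset W1} {lo1 hi1 : W1 → ℕ} {anc : W → W1}
  {N : W → ℝ} {n th1 th2 : ℝ} {rQ : ℕ} {σ : ℝ} {ω : W → I → ℝ} {E E' η : ℝ}
  {β : I → Option ℕ} {Z : Finset I} {cuts : Finset ℝ} {P1 P2 : I → W1 → Finset ℝ}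
  {Rest : I → W1 → ℝ → Prop} {Q : I → W1 → Finset ℤ} {xs : I → ℝ}

/-- weighted drivers of any coarsening of the labelling -/
theorem drv_piF
    (H : MacIn a b t m Y k0 k1 g ε C J2 lo hi J1 lo1 hi1 anc N n th1 th2 rQ σ ω E E' η)
    (hβ : Cut.IsChain Y (coneLt a b (t k0) (t k1)) β) (cZ : (Z.card : ℝ) ≤ E)
    (cc : (cuts.card : ℝ) ≤ 513 / η)
    (hLX : ∀ z, LXout (St a b t m) Y a J1 lo1 hi1 (xs z) rQ σ (P1 z) (P2 z) (Rest z) (Q z))
    {Λ : Type} {inst : DecidableEq Λ} (f : Option ℕ × Option I × Finset ℝ × Prop → Λ) (T : W → Finset Λ) :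
    ∑ j ∈ J2, ((∑ c ∈ T j, Dr (St a b t m)
        (Y.filter fun p => f (piF a β Z cuts J1 anc Rest j p) = c) (lo j) (hi j) : ℕ) : ℝ) * N j ^ (g + ε)
      ≤ th2 ^ (g + ε) * ((5 + 4 * E + 1026 / η) * Phi (St a b t m) Y k0 k1 + 2 * E * σ) := by
  have hT : TP (St a b t m) Y (coneLt a b (t k0) (t k1)) k0 k1 := tp_lines H.mono le_rfl le_rfl Y
  have hpt : ∀ z, Cut.IsChain Y (coneLt a b (t k0) (t k1)) fun p => if p = z then some () else none :=
    fun z => isChain_point z (fun _ _ _ _ _ _ => coneLt_trans) fun p _ h => lt_irrefl _ h.1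
  refine wsum_le (by linarith [H.g0, H.ε0]) H.N0 H.N2 H.th20 ?_
  have key := drv (U := St a b t m) (π := fun j p => f (piF a β Z cuts J1 anc Rest j p)) H.lay hT
    (s0 := (univ : Finset Bool).disjSum ((Z ×ˢ (univ : Finset Bool)).disjSum cuts))
    (L0 := Sum.elim (fun i => if i then chain1 Y (coneLt a b (t k0) (t k1)) β
        else chain2 Y (coneLt a b (t k0) (t k1)) β)
      (Sum.elim (fun x : I × Bool => if x.2 then
          chain1 Y (coneLt a b (t k0) (t k1)) fun p => if p = x.1 then some () else none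
        else chain2 Y (coneLt a b (t k0) (t k1)) fun p => if p = x.1 then some () else none)
        fun x p => a p < x))
    (s1 := fun j1 => Z.sigma fun z => (P1 z j1).disjSum (P2 z j1))
    (L1 := fun i : (Σ _ : I, ℝ ⊕ ℝ) => Sum.elim (fun x p => a p < x) (fun x p => a p ≤ x) i.2)
    (by
      rintro (i | ⟨z, i⟩ | x) -
      · cases i
        · exact hβ.down2
        · exact hβ.down1
      · cases i
        · exact (hpt z).down2
        · exact (hpt z).down1
      · exact down_lt Y)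
    (by
      intro j _ p hp q hq hR hne
      have hne' : piF a β Z cuts J1 anc Rest j p ≠ piF a β Z cuts J1 anc Rest j q :=
        fun e => hne (by simp only [e])
      by_cases e1 : β p = β q
      swap
      · rcases hβ.sep hp hq hR e1 with x | x
        · exact Or.inl ⟨Sum.inl true, by simp, x⟩
        · exact Or.inl ⟨Sum.inl false, by simp, x⟩
      by_cases e2 : hv Z p = hv Z q
      swap
      · have hpq : p ≠ q := fun e => e2 (by rw [e])
        obtain ⟨z, hz, e⟩ : ∃ z ∈ Z, (if p = z then some () else none) ≠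
            (if q = z then some () else none) := by
          by_cases x : p ∈ Z
          · exact ⟨p, x, by simp [hpq.symm]⟩
          · by_cases y : q ∈ Z
            · exact ⟨q, y, by simp [hpq]⟩
            · exact absurd (by simp [hv, x, y]) e2
        rcases (hpt z).sep hp hq hR e with x | x
        · exact Or.inl ⟨Sum.inr (Sum.inl (z, true)), by simp [hz], x⟩
        · exact Or.inl ⟨Sum.inr (Sum.inl (z, false)), by simp [hz], x⟩
      by_cases e3 : (cuts.filter fun x => a p < x) = cuts.filter fun x => a q < x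
      swap
      · obtain ⟨x, hx, y⟩ := sep_down (s := cuts) (L := fun x p => a p < x) (fun x _ => down_lt Y)
          p hp q hq hR (by convert e3)
        exact Or.inl ⟨Sum.inr (Sum.inr x), by simp [hx], y⟩
      have e4 : ¬ (bit a Z J1 anc Rest j p ↔ bit a Z J1 anc Rest j q) := fun e =>
        hne' (by simp only [piF, e1, e2, e3, propext e])
      have ha : anc j ∈ J1 := by
        by_contra ha
        exact e4 (by simp [bit, ha])
      obtain ⟨z, hz, e⟩ : ∃ z ∈ Z, ¬ (Rest z (anc j) (a p) ↔ Rest z (anc j) (a q)) := by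
        by_contra hn
        push Not at hn
        exact e4 (and_congr_right fun _ => exists_congr fun z => and_congr_right fun hz => hn z hz)
      rcases (hLX z).sep _ ha _ _ hR.1 e with ⟨x, hx, y, y'⟩ | ⟨x, hx, y, y'⟩
      · exact Or.inr ⟨ha, ⟨z, Sum.inl x⟩, by simp [hz, hx], y, not_lt.2 y'⟩
      · exact Or.inr ⟨ha, ⟨z, Sum.inr x⟩, by simp [hz, hx], y, not_le.2 y'⟩) T
  refine ((Nat.cast_le (α := ℝ)).2 key).trans ?_
  have hσ : 0 ≤ σ := by
    obtain ⟨_, _, _, _, h⟩ := H.lx 0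
    exact (Nat.cast_nonneg _).trans h.sum
  have s1 : ((∑ j1 ∈ J1, ∑ i ∈ Z.sigma (fun z => (P1 z j1).disjSum (P2 z j1)),
      flux (St a b t m) Y (Sum.elim (fun x p => a p < x) (fun x p => a p ≤ x) i.2) (lo1 j1) (hi1 j1) : ℕ) : ℝ)
      ≤ E * σ := by
    simp only [sum_sigma, sum_disjSum, Sum.elim_inl, Sum.elim_inr]
    rw [sum_comm, Nat.cast_sum]
    refine le_trans (sum_le_card_nsmul Z _ σ fun z _ => le_trans (Nat.cast_le.2 ?_) (hLX z).sum) ?_
    · exact sum_le_sum fun j _ => by omega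
    · rw [nsmul_eq_mul]
      exact mul_le_mul_of_nonneg_right cZ hσ
  have s2 : (((univ : Finset Bool).disjSum ((Z ×ˢ (univ : Finset Bool)).disjSum cuts)).card : ℝ)
      ≤ 2 + 2 * E + 513 / η := by
    simp only [card_disjSum, card_product, card_univ, Fintype.card_bool]
    push_cast
    linarith
  rw [Nat.cast_add, Nat.cast_mul, Nat.cast_mul, Nat.cast_add, Nat.cast_mul]
  have s3 : (0 : ℝ) ≤ Phi (St a b t m) Y k0 k1 := Nat.cast_nonneg _
  have s4 : (1026 : ℝ) / η = 2 * (513 / η) := by ring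
  rw [s4]
  push_cast at s1 ⊢
  nlinarith [mul_le_mul_of_nonneg_right s2 s3]

theorem share_gen {Λ : Type} {U : ℕ → I → Prop} (π : W → I → Λ) {A g' : ℝ} (hN : ∀ j ∈ J2, 0 < N j)
    (hd : ∀ T : W → Finset Λ, ∑ j ∈ J2, ((∑ c ∈ T j, Dr U (Y.filter fun p => π j p = c)
      (lo j) (hi j) : ℕ) : ℝ) * N j ^ g' ≤ A)
    (P : W → Finset I → Prop) (P' : W → I → Prop)
    (hP : ∀ j, ∀ p ∈ Y, P j (cellOf Y (π j) p) → P' j p) :
    ∑ j ∈ J2, ∑ S ∈ (Y.image (cellOf Y (π j))).filter (P j), (Phi U S (lo j) (hi j) : ℝ) * N j ^ g'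
      ≤ ∑ j ∈ J2, (((Ch U Y (lo j) (hi j)).filter (P' j)).card : ℝ) * N j ^ g' + A := by
  have d := hd fun j => (Y.image (π j)).filter fun c => P j (Y.filter fun q => π j q = c)
  refine le_trans ?_ (add_le_add le_rfl d)
  rw [← sum_add_distrib]
  refine sum_le_sum fun j hj => ?_
  rw [← sum_mul, ← add_mul, ← Nat.cast_sum, ← Nat.cast_add]
  refine mul_le_mul_of_nonneg_right (Nat.cast_le.2 ?_) (Real.rpow_nonneg (hN j hj).le _)
  refine (sum_cellOf_le (fun S => Phi U S (lo j) (hi j)) (P j)).trans ?_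
  exact cells_le _ _ (P' j) fun p hp h => hP j p hp (mem_filter.1 h).2

theorem share_piF
    (H : MacIn a b t m Y k0 k1 g ε C J2 lo hi J1 lo1 hi1 anc N n th1 th2 rQ σ ω E E' η)
    (hβ : Cut.IsChain Y (coneLt a b (t k0) (t k1)) β) (cZ : (Z.card : ℝ) ≤ E)
    (cc : (cuts.card : ℝ) ≤ 513 / η)
    (hLX : ∀ z, LXout (St a b t m) Y a J1 lo1 hi1 (xs z) rQ σ (P1 z) (P2 z) (Rest z) (Q z))
    (P : W → Finset I → Prop) (P' : W → I → Prop)
    (hP : ∀ j, ∀ p ∈ Y, P j (cellOf Y (piF a β Z cuts J1 anc Rest j) p) → P' j p) :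
    ∑ j ∈ J2, ∑ S ∈ (Y.image (cellOf Y (piF a β Z cuts J1 anc Rest j))).filter (P j),
        (Phi (St a b t m) S (lo j) (hi j) : ℝ) * N j ^ (g + ε)
      ≤ ∑ j ∈ J2, (((Ch (St a b t m) Y (lo j) (hi j)).filter (P' j)).card : ℝ) * N j ^ (g + ε)
        + th2 ^ (g + ε) * ((5 + 4 * E + 1026 / η) * Phi (St a b t m) Y k0 k1 + 2 * E * σ) :=
  share_gen (piF a β Z cuts J1 anc Rest) H.N0 
    (fun T => drv_piF H hβ cZ cc hLX (inst := fun x y => Classical.propDecidable (x = y)) (fun c => c) T)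
    P P' hP

theorem bad_card_le
    (H : MacIn a b t m Y k0 k1 g ε C J2 lo hi J1 lo1 hi1 anc N n th1 th2 rQ σ ω E E' η)
    (hβ : Cut.IsChain Y (coneLt a b (t k0) (t k1)) β) (hO : Ord (St a b t m) Y β k0 k1)
    (cZ : (Z.card : ℝ) ≤ E) (cc : (cuts.card : ℝ) ≤ 513 / η)
    (hLX : ∀ z, LXout (St a b t m) Y a J1 lo1 hi1 (xs z) rQ σ (P1 z) (P2 z) (Rest z) (Q z)) :
    ∑ j ∈ J2, (((Ch (St a b t m) Y (lo j) (hi j)).filter
        (badP (St a b t m) Y a β Z J2 lo hi N (n / E') J1 anc Rest j)).card : ℝ) * N j ^ (g + ε)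
      ≤ 2 * (th2 ^ (g + ε) * ((5 + 4 * E + 1026 / η) * Phi (St a b t m) Y k0 k1 + 2 * E * σ))
        + 5 * (C * 8 ^ g / (1 - 2 ^ (-ε))) * Phi (St a b t m) Y k0 k1 * (n / E') ^ (g + ε)
        + E * (C * 8 ^ g / (1 - 2 ^ (-ε)) * th1 ^ (g + ε) * (Phi (St a b t m) Y k0 k1 + 2 * σ)) := by
  have hT : TP (St a b t m) Y (coneLt a b (t k0) (t k1)) k0 k1 := tp_lines H.mono le_rfl le_rfl Y
  have d1 := drv_piF H hβ cZ cc hLX (inst := inferInstance) Prod.fst fun _ => Y.image β
  have d2 := drv_piF H hβ cZ cc hLX (inst := inferInstance) (fun c => c.2.1) fun _ => Z.image some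
  have d3 := small_le H.g0 H.ε0 H.C0 H.pw H.lay.d2 hT hβ H.N0 (div_nonneg H.n0.le H.E'0.le)
  have d4 : ∀ z ∈ Z, ∑ j ∈ J2, (((Ch (St a b t m) Y (lo j) (hi j)).filter
      fun p => anc j ∈ J1 ∧ Rest z (anc j) (a p)).card : ℝ) * N j ^ (g + ε)
      ≤ C * 8 ^ g / (1 - 2 ^ (-ε)) * th1 ^ (g + ε) * (Phi (St a b t m) Y k0 k1 + 2 * σ) :=
    fun z _ => rest_le H.g0 H.ε0 H.C0 H.pw H.lay H.N0 H.th10 H.N1 (fun j p => Rest z j (a p))
      ((hLX z).phi H.lay.d1 hT fun _ _ h => h.1)
  have d5 := sum_le_card_nsmul Z _ _ d4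
  rw [nsmul_eq_mul, sum_comm] at d5
  have hσ : 0 ≤ σ := by
    obtain ⟨_, _, _, _, h⟩ := H.lx 0
    exact (Nat.cast_nonneg _).trans h.sum
  have hC1 : 0 ≤ C * 8 ^ g / (1 - 2 ^ (-ε)) := by
    have : (2 : ℝ) ^ (-ε) < 1 := Real.rpow_lt_one_of_one_lt_of_neg (by norm_num) (by linarith [H.ε0])
    exact div_nonneg (mul_nonneg H.C0 (by positivity)) (by linarith)
  have d6 := d5.trans (mul_le_mul_of_nonneg_right cZ (mul_nonneg
    (mul_nonneg hC1 (Real.rpow_nonneg H.th10 _)) (by positivity)))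
  rw [two_mul (th2 ^ (g + ε) * _)]
  refine le_trans ?_ (add_le_add (add_le_add (add_le_add d1 d2) d3) d6)
  rw [← sum_add_distrib, ← sum_add_distrib, ← sum_add_distrib]
  refine sum_le_sum fun j hj => ?_
  rw [← sum_mul, ← add_mul, ← add_mul, ← add_mul, ← Nat.cast_sum, ← Nat.cast_add, ← Nat.cast_add,
    ← Nat.cast_add]
  refine mul_le_mul_of_nonneg_right (Nat.cast_le.2 ?_) (Real.rpow_nonneg (H.N0 j hj).le _)
  have a1 := mid_card_le hO (H.lay.d2.lo_le j hj) (H.lay.d2.le_hi j hj)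
  have a2 : ((Ch (St a b t m) Y (lo j) (hi j)).filter fun p => p ∈ Z).card
      ≤ ∑ c ∈ Z.image some, Dr (St a b t m) (Y.filter fun p => hv Z p = c) (lo j) (hi j) := by
    rw [card_eq_sum_card_fiberwise (f := hv Z) (t := Z.image some) (fun p hp => mem_coe.2 (by
      have := (mem_filter.1 (mem_coe.1 hp)).2
      simp [hv, this]))]
    refine sum_le_sum fun c hc => le_trans (card_le_card ?_) (card_Ch_le_Dr_of_subsingleton ?_)
    · rw [Ch_filter]
      exact filter_subset_filter _ (filter_subset _ _)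
    · obtain ⟨z, -, rfl⟩ := mem_image.1 hc
      have : ∀ p ∈ Y.filter fun p => hv Z p = some z, p = z := by
        intro p hp
        have := (mem_filter.1 hp).2
        unfold hv at this
        split_ifs at this
        exact Option.some_injective _ this
      exact card_le_one.2 fun p hp q hq => (this p hp).trans (this q hq).symm
  have a3 : (Ch (St a b t m) Y (lo j) (hi j)).filter
      (badP (St a b t m) Y a β Z J2 lo hi N (n / E') J1 anc Rest j) ⊆
      (Y.filter fun p => ∃ c, β p = some c ∧ Mid (St a b t m) Y β (lo j) (hi j) c) ∪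
      ((Ch (St a b t m) Y (lo j) (hi j)).filter fun p => p ∈ Z) ∪
      ((Ch (St a b t m) Y (lo j) (hi j)).filter fun p => ∃ c, β p = some c ∧
        Ext (St a b t m) Y β (lo j) (hi j) c ∧ nExt (St a b t m) Y β J2 lo hi N c ≤ n / E') ∪
      Z.biUnion fun z => (Ch (St a b t m) Y (lo j) (hi j)).filter
        fun p => anc j ∈ J1 ∧ Rest z (anc j) (a p) := by
    intro p hp
    obtain ⟨hp, h | h | h | ⟨h, z, hz, h'⟩⟩ := mem_filter.1 hp
    · exact mem_union_left _ (mem_union_left _ (mem_union_left _ (mem_filter.2 ⟨Ch_subset hp, h⟩)))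
    · exact mem_union_left _ (mem_union_right _ (mem_filter.2 ⟨hp, h⟩))
    · exact mem_union_left _ (mem_union_left _ (mem_union_right _ (mem_filter.2 ⟨hp, h⟩)))
    · exact mem_union_right _ (mem_biUnion.2 ⟨z, hz, mem_filter.2 ⟨hp, h, h'⟩⟩)
  refine (card_le_card a3).trans ((card_union_le _ _).trans (add_le_add ((card_union_le _ _).trans
    (add_le_add ((card_union_le _ _).trans (add_le_add a1 a2)) le_rfl)) card_biUnion_le))

end Pool.Agent.Lib.MP_d308c3_co.Mac
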